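import Mathlib

/-! Integer polynomials along the lines `x + y = n`. -/

set_option autoImplicit false

namespace Pool.Agent.V1153.SX

open Finset Polynomial

/-- the polynomial `f(x, n - x)` in `x` -/
noncomputable def line (f : MvPolynomial (Fin 2) ℤ) (n : ℕ) : ℤ[X] :=
  MvPolynomial.aeval ![(X : ℤ[X]), C (n : ℤ) - X] f

/-- the family is admissible -/
def Admissible {m : ℕ} (f : Fin m → MvPolynomial (Fin 2) ℤ) : Prop :=
  ∃ N₀ : ℕ, ∀ n : ℕ, N₀ ≤ n → (∀ k, Irreducible (line (f k) n)) ∧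
    ∀ p : ℕ, p.Prime → ∃ x : ℤ, ¬ (p : ℤ) ∣ ∏ k, (line (f k) n).eval x

theorem eval_line (f : MvPolynomial (Fin 2) ℤ) (n : ℕ) (x : ℤ) :
    (line f n).eval x = MvPolynomial.eval ![x, n - x] f := by
  unfold line
  rw [← Polynomial.coe_evalRingHom, MvPolynomial.map_aeval]
  unfold MvPolynomial.eval
  have h : (evalRingHom x).comp (algebraMap ℤ ℤ[X]) = RingHom.id ℤ := RingHom.ext_int _ _
  have h' : (fun i => (evalRingHom x) (![(X : ℤ[X]), C (n : ℤ) - X] i)) = ![x, (n : ℤ) - x] := by
    funext i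
    fin_cases i <;> simp
  rw [h, h']

theorem natDegree_line_le (f : MvPolynomial (Fin 2) ℤ) (n : ℕ) :
    (line f n).natDegree ≤ f.totalDegree := by
  have h := MvPolynomial.aeval_natDegree_le f (m := f.totalDegree) le_rfl
    (![(X : ℤ[X]), C (n : ℤ) - X]) (n := 1) (by
      intro i
      fin_cases i
      · simp
      · refine (natDegree_sub_le _ _).trans ?_
        simp)
  rw [mul_one] at h
  exact h

/-- polynomial growth along the lines -/
theorem abs_eval_le (f : MvPolynomial (Fin 2) ℤ) : ∃ A : ℕ, ∀ n x : ℕ, 1 ≤ n → x ≤ n →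
    |MvPolynomial.eval ![(x : ℤ), n - x] f| ≤ A * (n : ℤ) ^ f.totalDegree := by
  refine ⟨∑ d ∈ f.support, (f.coeff d).natAbs, fun n x hn hx => ?_⟩
  rw [MvPolynomial.eval_eq']
  refine (abs_sum_le_sum_abs _ _).trans ?_
  push_cast
  rw [sum_mul]
  apply sum_le_sum
  intro d hd
  rw [abs_mul]
  apply mul_le_mul_of_nonneg_left _ (abs_nonneg _)
  have hnx : |(n : ℤ) - x| ≤ n := by
    rw [abs_le]
    omega
  have hxn : |(x : ℤ)| ≤ n := by
    rw [abs_le]
    omega
  rw [Fin.prod_univ_two]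
  simp only [Matrix.cons_val_zero, Matrix.cons_val_one]
  rw [abs_mul, abs_pow, abs_pow]
  have h1 : |(x : ℤ)| ^ d 0 * |(n : ℤ) - x| ^ d 1 ≤ (n : ℤ) ^ d 0 * (n : ℤ) ^ d 1 :=
    mul_le_mul (pow_le_pow_left₀ (abs_nonneg _) hxn _) (pow_le_pow_left₀ (abs_nonneg _) hnx _)
      (pow_nonneg (abs_nonneg _) _) (by positivity)
  refine h1.trans ?_
  rw [← pow_add]
  apply pow_le_pow_right₀ (by exact_mod_cast hn)
  have h2 := MvPolynomial.le_totalDegree hd
  have h3 : (d.sum fun _ e => e) = d 0 + d 1 := by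
    rw [Finsupp.sum_fintype _ _ (by simp), Fin.sum_univ_two]
  omega

/-- the number of roots modulo a prime -/
theorem card_roots_mod (P : ℤ[X]) (p : ℕ) (hp : p.Prime) (x : ℤ) (hx : ¬ (p : ℤ) ∣ P.eval x) :
    ((range p).filter (fun r : ℕ => (p : ℤ) ∣ P.eval (r : ℤ))).card ≤ P.natDegree := by
  have : Fact p.Prime := ⟨hp⟩
  have hcast : ∀ z : ℤ, ((P.eval z : ℤ) : ZMod p) = (P.map (Int.castRingHom (ZMod p))).eval (z : ZMod p) := by
    intro z
    have := Polynomial.eval_intCast_map (Int.castRingHom (ZMod p)) P z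
    simp only [eq_intCast, Int.cast_id] at this
    rw [this]
  have hne : P.map (Int.castRingHom (ZMod p)) ≠ 0 := by
    intro h
    apply hx
    rw [← ZMod.intCast_zmod_eq_zero_iff_dvd, hcast, h, eval_zero]
  calc ((range p).filter (fun r : ℕ => (p : ℤ) ∣ P.eval (r : ℤ))).card ≤
      (P.map (Int.castRingHom (ZMod p))).roots.toFinset.card := by
        apply card_le_card_of_injOn (fun r : ℕ => (r : ZMod p))
        · intro r hr
          rw [mem_coe, mem_filter] at hr
          rw [mem_coe, Multiset.mem_toFinset, mem_roots hne, IsRoot.def]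
          have := hcast (r : ℤ)
          rw [(ZMod.intCast_zmod_eq_zero_iff_dvd _ _).2 hr.2] at this
          rw [Int.cast_natCast] at this
          exact this.symm
        · intro r hr s hs hrs
          rw [mem_coe, mem_filter, mem_range] at hr hs
          have h1 := (ZMod.natCast_eq_natCast_iff' r s p).1 hrs
          rwa [Nat.mod_eq_of_lt hr.1, Nat.mod_eq_of_lt hs.1] at h1
    _ ≤ (P.map (Int.castRingHom (ZMod p))).roots.card := Multiset.toFinset_card_le _
    _ ≤ (P.map (Int.castRingHom (ZMod p))).natDegree := card_roots' _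
    _ ≤ P.natDegree := natDegree_map_le

/-- values of a polynomial are congruent at congruent arguments -/
theorem dvd_eval_iff (P : ℤ[X]) (p n : ℕ) :
    (p : ℤ) ∣ P.eval (n : ℤ) ↔ (p : ℤ) ∣ P.eval ((n % p : ℕ) : ℤ) := by
  have h1 : (p : ℤ) ∣ P.eval (n : ℤ) - P.eval ((n % p : ℕ) : ℤ) := by
    refine dvd_trans ?_ (sub_dvd_eval_sub _ _ P)
    have h2 : (n : ℤ) = p * ((n / p : ℕ) : ℤ) + ((n % p : ℕ) : ℤ) := by
      exact_mod_cast (Nat.div_add_mod n p).symm
    exact ⟨((n / p : ℕ) : ℤ), by linarith⟩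
  constructor
  · intro h
    have := Int.dvd_sub h h1
    rwa [sub_sub_cancel] at this
  · intro h
    have := Int.dvd_add h h1
    rwa [add_sub_cancel] at this

/-- a nonconstant polynomial takes a value at most `natDegree` times -/
theorem card_val (g : ℤ[X]) (hg : 1 ≤ g.natDegree) (n : ℕ) (v : ℤ) :
    ((Icc 1 n).filter (fun x : ℕ => g.eval (x : ℤ) = v)).card ≤ g.natDegree := by
  have hne : g - C v ≠ 0 := by
    intro h
    rw [sub_eq_zero] at h
    rw [h, natDegree_C] at hg
    omega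
  calc ((Icc 1 n).filter (fun x : ℕ => g.eval (x : ℤ) = v)).card ≤ (g - C v).roots.toFinset.card := by
        apply card_le_card_of_injOn (fun r : ℕ => (r : ℤ))
        · intro r hr
          rw [mem_coe, mem_filter] at hr
          rw [mem_coe, Multiset.mem_toFinset, mem_roots hne, IsRoot.def, eval_sub, eval_C, hr.2, sub_self]
        · intro r _ s _ hrs
          have h : (r : ℤ) = s := hrs
          exact_mod_cast h
    _ ≤ (g - C v).roots.card := Multiset.toFinset_card_le _
    _ ≤ (g - C v).natDegree := card_roots' _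
    _ = g.natDegree := natDegree_sub_C

/-- admissible polynomials are nonconstant along the lines -/
theorem natDegree_pos {m : ℕ} (f : Fin m → MvPolynomial (Fin 2) ℤ) (n : ℕ)
    (h1 : ∀ k, Irreducible (line (f k) n))
    (h2 : ∀ p : ℕ, p.Prime → ∃ x : ℤ, ¬ (p : ℤ) ∣ ∏ k, (line (f k) n).eval x) (k : Fin m) :
    1 ≤ (line (f k) n).natDegree := by
  by_contra h
  have h3 : (line (f k) n).natDegree = 0 := by omega
  obtain ⟨a, ha⟩ := natDegree_eq_zero.1 h3
  have h4 : Prime (C a : ℤ[X]) := by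
    rw [ha]
    exact (h1 k).prime
  have h5 : Prime a := prime_C_iff.1 h4
  have h6 := Int.prime_iff_natAbs_prime.1 h5
  obtain ⟨x, hx⟩ := h2 _ h6
  apply hx
  refine dvd_trans ?_ (dvd_prod_of_mem _ (mem_univ k))
  rw [← ha, eval_C]
  exact Int.natAbs_dvd.2 dvd_rfl

end Pool.Agent.V1153.SX
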