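import Mathlib
import Pool.Agent.V1153.SX.Lin
import Pool.Agent.V1153.GG.Cnt
import Pool.Agent.H305R2.MertensE

/-! Many integers up to `n` avoid at most `c` classes modulo every prime up to `n ^ (1 / (C c))`. -/

set_option autoImplicit false

namespace Pool.Agent.V1153.SX

open Finset Pool.Agent.H373R2.T7

theorem Vz_lower : ∃ a : ℝ, 0 < a ∧ ∀ y : ℕ, 2 ≤ y → a / Real.log y ≤ Vz y := by
  have h := Pool.Agent.H305R2.mertens_three
  have hb := h.bddAbove_range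
  obtain ⟨C1, hC1⟩ := hb
  have key : ∀ y : ℕ, ∏ p ∈ (Finset.Icc 1 y).filter Nat.Prime, (1 - (p : ℝ)⁻¹)⁻¹ = (Vz y)⁻¹ := by
    intro y
    unfold Vz pz
    rw [← Finset.prod_inv_distrib]
    simp only [one_div]
  have h1 : ∀ y : ℕ, (Vz y)⁻¹ / Real.log y ≤ max C1 1 := by
    intro y
    have := hC1 ⟨y, rfl⟩
    simp only [key] at this
    exact this.trans (le_max_left _ _)
  have hm1 : 0 < max C1 1 := lt_of_lt_of_le one_pos (le_max_right _ _)
  refine ⟨(max C1 1)⁻¹, inv_pos.2 hm1, ?_⟩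
  intro y hy
  have hlog : 0 < Real.log y := Real.log_pos (by exact_mod_cast (by omega : 1 < y))
  have hv := Vz_pos y
  have := h1 y
  rw [div_le_iff₀ hlog, inv_le_comm₀ hv (by positivity)] at this
  rw [div_eq_mul_inv, ← mul_inv]
  exact this

/-- the logarithm exceeds any bound -/
theorem ev_big (A : ℝ) : ∃ n0 : ℕ, ∀ n : ℕ, n0 ≤ n → A ≤ Real.log n := by
  have h := (Real.tendsto_log_atTop.comp (tendsto_natCast_atTop_atTop (R := ℝ))).eventually_ge_atTop A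
  exact Filter.eventually_atTop.1 h

open Classical in
/-- Many integers avoid at most `c` classes modulo each prime up to `n ^ (1 / (C c))`. -/
theorem count_lots : ∃ C : ℕ, 1 ≤ C ∧ ∀ c : ℕ, 1 ≤ c → ∃ N : ℕ, ∀ n : ℕ, N ≤ n →
    ∀ y : ℕ, y ^ (C * c) ≤ n → ∀ Q : ℕ → ℕ → Prop, PerB Q c → (∀ p, p.Prime → nuB Q p < p) →
      (n : ℝ) / Real.log n ^ (2 * c + 1) + 3 * c ≤
        ((Icc 1 (n - 1)).filter (fun m => ∀ p ∈ pz y, ¬ Q p m)).card := by
  obtain ⟨C, hC, hC1⟩ := sys_lin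
  obtain ⟨a, ha, hV⟩ := Vz_lower
  refine ⟨C, hC, fun c hc => ?_⟩
  obtain ⟨x0, hF⟩ := hC1 c hc
  obtain ⟨z, hz⟩ : ∃ z, z = max x0 2 := ⟨_, rfl⟩
  obtain ⟨c0, hc0⟩ : ∃ c0 : ℝ, c0 = (1 / (4 * c : ℝ)) ^ (4 * c) := ⟨_, rfl⟩
  have hc' : (1 : ℝ) ≤ c := by exact_mod_cast hc
  have hc0' : 0 < c0 := by rw [hc0]; positivity
  obtain ⟨κ, hκ⟩ : ∃ κ : ℝ, κ = c0 * a ^ (2 * c) := ⟨_, rfl⟩
  have hκ0 : 0 < κ := by rw [hκ]; positivity
  obtain ⟨n0, hn0⟩ := Pool.Agent.V1153.GG.ev_log 1 (2 * c + 1)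
  obtain ⟨n1, hn1⟩ := ev_big (16 / κ)
  refine ⟨max (z ^ (C * c)) (max (max n0 n1) ((4 * c + 4) ^ 2)), fun n hn y hy Q hQ had => ?_⟩
  have hm1 : z ^ (C * c) ≤ n := (le_max_left _ _).trans hn
  have hm2 : n0 ≤ n := le_trans (le_trans (le_max_left _ _) (le_trans (le_max_left _ _) (le_max_right _ _))) hn
  have hm3 : n1 ≤ n := le_trans (le_trans (le_max_right _ _) (le_trans (le_max_left _ _) (le_max_right _ _))) hn
  have hm4 : (4 * c + 4) ^ 2 ≤ n := (le_trans (le_max_right _ _) (le_max_right _ _)).trans hn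
  obtain ⟨y', hy'⟩ : ∃ y', y' = max y z := ⟨_, rfl⟩
  have hCc : C * c ≠ 0 := Nat.mul_ne_zero (by omega) (by omega)
  have hy'K : y' ^ (C * c) ≤ n := by
    rcases le_total y z with h | h
    · rw [hy', max_eq_right h]
      exact hm1
    · rw [hy', max_eq_left h]
      exact hy
  have hzy : z ≤ y' := hy' ▸ le_max_right _ _
  have h2z : 2 ≤ z := hz ▸ le_max_right _ _
  have hx0z : x0 ≤ z := hz ▸ le_max_left _ _
  have h1 := hF n y' (hx0z.trans hzy) hy'K Q hQ (n - 1)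
  have h2 := (abs_le.1 h1).1
  have hyn : y' ≤ n := (Nat.le_self_pow hCc y').trans hy'K
  have hn1' : 1 ≤ n := le_trans (Nat.one_le_pow _ _ (by omega)) hm1
  have hly : 0 < Real.log y' := Real.log_pos (by exact_mod_cast (by omega : 1 < y'))
  have hln : Real.log y' ≤ Real.log n :=
    Real.log_le_log (by exact_mod_cast (by omega : 0 < y')) (by exact_mod_cast hyn)
  have hln0 : 0 < Real.log n := hly.trans_le hln
  obtain ⟨L, hL⟩ : ∃ L : ℝ, L = Real.log n := ⟨_, rfl⟩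
  rw [← hL] at hln hln0
  obtain ⟨V, hVd⟩ : ∃ V : ℝ, V = ∏ p ∈ pz y', (1 - (nuB Q p : ℝ) / p) := ⟨_, rfl⟩
  rw [← hVd] at h2
  have h3 : κ / L ^ (2 * c) ≤ V := by
    rw [hVd]
    refine le_trans ?_ (Pool.Agent.V1153.GG.prod_ge c hc Q hQ had y')
    rw [← hc0, hκ, mul_div_assoc, ← div_pow]
    apply mul_le_mul_of_nonneg_left _ hc0'.le
    apply pow_le_pow_left₀ (by positivity)
    refine le_trans ?_ (hV y' (h2z.trans hzy))
    exact div_le_div_of_nonneg_left ha.le hly hln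
  have hV1 : V ≤ 1 := by
    rw [hVd]
    apply prod_le_one
    · intro p hp
      have hpp := (mem_pz.1 hp).2
      have hp0 : (0 : ℝ) < p := by exact_mod_cast hpp.pos
      have : (nuB Q p : ℝ) / p ≤ 1 := by
        rw [div_le_one hp0]
        exact_mod_cast nuB_le Q p
      linarith
    · intro p hp
      have : 0 ≤ (nuB Q p : ℝ) / p := by positivity
      linarith
  have h4 := hn0 n hm2
  rw [one_mul, ← hL] at h4
  have h5 := hn1 n hm3
  rw [← hL] at h5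
  have hnr : (0 : ℝ) < n := by exact_mod_cast hn1'
  obtain ⟨T, hT⟩ : ∃ T : ℝ, T = n / L ^ (2 * c + 1) := ⟨_, rfl⟩
  have hT1 : √(n : ℝ) ≤ T := by
    rw [hT, le_div_iff₀ (by positivity)]
    calc √(n : ℝ) * L ^ (2 * c + 1) ≤ √(n : ℝ) * √(n : ℝ) :=
          mul_le_mul_of_nonneg_left h4 (Real.sqrt_nonneg _)
      _ = n := Real.mul_self_sqrt hnr.le
  have hT2 : 16 * T ≤ n * V := by
    have h6 : 16 ≤ κ * L := by
      rw [div_le_iff₀ hκ0] at h5
      linarith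
    calc 16 * T = n / L ^ (2 * c + 1) * 16 := by rw [hT]; ring
      _ ≤ n / L ^ (2 * c + 1) * (κ * L) := mul_le_mul_of_nonneg_left h6 (by positivity)
      _ = n * (κ / L ^ (2 * c)) := by
          rw [pow_succ]
          field_simp
      _ ≤ n * V := mul_le_mul_of_nonneg_left h3 hnr.le
  have h7 : (4 * c + 4 : ℝ) ≤ √(n : ℝ) := by
    rw [Real.le_sqrt (by positivity) hnr.le]
    exact_mod_cast hm4
  have h8 : ((n - 1 : ℕ) : ℝ) = n - 1 := by
    rw [Nat.cast_sub hn1']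
    norm_num
  rw [h8] at h2
  have h9 : (n : ℝ) / L ^ (2 * c + 1) + 3 * c ≤
      (((Icc 1 (n - 1)).filter (fun m => ∀ p ∈ pz y', ¬ Q p m)).card : ℝ) := by
    rw [← hT]
    nlinarith
  rw [← hL]
  refine h9.trans ?_
  exact_mod_cast card_le_card (by
    intro m hm
    rw [mem_filter] at hm ⊢
    refine ⟨hm.1, fun p hp => hm.2 p ?_⟩
    rw [mem_pz] at hp ⊢
    exact ⟨hp.1.trans (hy' ▸ le_max_left _ _), hp.2⟩)

end Pool.Agent.V1153.SX
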