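import Mathlib
import Pool.Agent.V1153.SX.Cnt
import Pool.Agent.V1153.SX.Poly

/-! Almost-prime values of admissible families on the lines `x + y = n`. -/

set_option autoImplicit false

namespace Pool.Agent.V1153.SX

open Finset Polynomial Pool.Agent.H373R2.T7

/-- `v` is not `0` or `±1`, it has at most `R` prime factors, counted with multiplicity, and each
of them is larger than `n ^ (1 / S)` -/
def AlmostPrime (R S n : ℕ) (v : ℤ) : Prop :=
  2 ≤ |v| ∧ v.natAbs.primeFactorsList.length ≤ R ∧ ∀ p : ℕ, p.Prime → (p : ℤ) ∣ v → n < p ^ S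

theorem exists_root (E n : ℕ) (hE : 1 ≤ E) : ∃ y : ℕ, y ^ E ≤ n ∧ n < (y + 1) ^ E := by
  have hex : ∃ z : ℕ, n < z ^ E := ⟨n + 1, by
    calc n < n + 1 := Nat.lt_succ_self n
      _ ≤ (n + 1) ^ E := Nat.le_self_pow (by omega) _⟩
  classical
  have h1 := Nat.find_spec hex
  have h0 : Nat.find hex ≠ 0 := by
    intro h
    rw [h, zero_pow (by omega)] at h1
    omega
  refine ⟨Nat.find hex - 1, ?_, ?_⟩
  · have h2 := Nat.find_min hex (m := Nat.find hex - 1) (by omega)
    omega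
  · rwa [Nat.sub_add_cancel (by omega)]

theorem few_factors (E n y A d v : ℕ) (hn : n < (y + 1) ^ E) (hA : A ^ E ≤ n)
    (hv : v ≤ A * n ^ d) (hv0 : v ≠ 0) (hp : ∀ p : ℕ, p.Prime → p ∣ v → y + 1 ≤ p) :
    v.primeFactorsList.length ≤ E * d := by
  by_contra hcon
  have hlen : E * d + 1 ≤ v.primeFactorsList.length := by omega
  have h1 : (y + 1) ^ v.primeFactorsList.length ≤ v := by
    conv_rhs => rw [← Nat.prod_primeFactorsList hv0]
    apply List.pow_card_le_prod
    intro p hpm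
    exact hp p (Nat.prime_of_mem_primeFactorsList hpm) (Nat.dvd_of_mem_primeFactorsList hpm)
  have h2 : (y + 1) ^ (E * d + 1) ≤ v := (Nat.pow_le_pow_right (by omega) hlen).trans h1
  have h3 : ((y + 1) ^ E) ^ (E * d + 1) ≤ A ^ E * n ^ (E * d) := by
    calc ((y + 1) ^ E) ^ (E * d + 1) = ((y + 1) ^ (E * d + 1)) ^ E := by
          rw [← pow_mul, ← pow_mul, mul_comm]
      _ ≤ (A * n ^ d) ^ E := Nat.pow_le_pow_left (h2.trans hv) _
      _ = A ^ E * n ^ (E * d) := by rw [mul_pow, ← pow_mul, mul_comm d E]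
  have h4 : n ^ (E * d + 1) < ((y + 1) ^ E) ^ (E * d + 1) := Nat.pow_lt_pow_left hn (by omega)
  have h5 : A ^ E * n ^ (E * d) ≤ n ^ (E * d + 1) := by
    rw [pow_succ, mul_comm (n ^ (E * d))]
    exact Nat.mul_le_mul_right _ hA
  omega

open Classical in
theorem almost : ∃ C : ℕ, ∀ (m : ℕ) (f : Fin m → MvPolynomial (Fin 2) ℤ), 1 ≤ m → Admissible f →
    ∃ N : ℕ, ∀ n : ℕ, N ≤ n →
      (n : ℝ) / Real.log n ^ (2 * (∑ k, (f k).totalDegree) + 1) ≤
        (((Icc 1 (n - 1)).filter (fun x : ℕ => ∀ k,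
          AlmostPrime (C * (∑ k, (f k).totalDegree) * (f k).totalDegree)
            (C * (∑ k, (f k).totalDegree)) n
            (MvPolynomial.eval ![(x : ℤ), (n : ℤ) - x] (f k)))).card : ℝ) := by
  obtain ⟨C, hC, hcount⟩ := count_lots
  refine ⟨C, fun m f hm hf => ?_⟩
  obtain ⟨N0, hN0⟩ := hf
  obtain ⟨D, hD⟩ : ∃ D, D = ∑ k, (f k).totalDegree := ⟨_, rfl⟩
  rw [← hD]
  have hdeg : ∀ k, 1 ≤ (f k).totalDegree := fun k =>
    (natDegree_pos f N0 (hN0 N0 le_rfl).1 (hN0 N0 le_rfl).2 k).trans (natDegree_line_le _ _)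
  have hD1 : 1 ≤ D := by
    rw [hD]
    refine (hdeg ⟨0, hm⟩).trans ?_
    exact single_le_sum (f := fun k => (f k).totalDegree) (fun _ _ => Nat.zero_le _) (mem_univ _)
  obtain ⟨N1, hN1⟩ := hcount D hD1
  have hA : ∀ k, ∃ A : ℕ, ∀ n x : ℕ, 1 ≤ n → x ≤ n →
    |MvPolynomial.eval ![(x : ℤ), n - x] (f k)| ≤ A * (n : ℤ) ^ (f k).totalDegree :=
    fun k => abs_eval_le (f k)
  choose A hA using hA
  obtain ⟨E, hE⟩ : ∃ E, E = C * D := ⟨_, rfl⟩
  have hE1 : 1 ≤ E := hE ▸ Nat.mul_pos hC hD1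
  rw [← hE]
  refine ⟨max (max N0 N1) ((∑ k, A k) ^ E + 1), fun n hn => ?_⟩
  have hnN0 : N0 ≤ n := le_trans (le_trans (le_max_left _ _) (le_max_left _ _)) hn
  have hnN1 : N1 ≤ n := le_trans (le_trans (le_max_right _ _) (le_max_left _ _)) hn
  have hnA : (∑ k, A k) ^ E + 1 ≤ n := (le_max_right _ _).trans hn
  have hn1 : 1 ≤ n := by omega
  obtain ⟨hirr, hfix⟩ := hN0 n hnN0
  have hpos := natDegree_pos f n hirr hfix
  obtain ⟨y, hy1, hy2⟩ := exists_root E n hE1
  obtain ⟨P, hP⟩ : ∃ P : ℤ[X], P = ∏ k, line (f k) n := ⟨_, rfl⟩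
  have hPe : ∀ x : ℤ, P.eval x = ∏ k, (line (f k) n).eval x := by
    intro x
    rw [hP, eval_prod]
  have hPdeg : P.natDegree ≤ D := by
    rw [hP, hD]
    exact (natDegree_prod_le _ _).trans (sum_le_sum fun k _ => natDegree_line_le _ _)
  obtain ⟨Q, hQ⟩ : ∃ Q : ℕ → ℕ → Prop, Q = fun (p x : ℕ) => (p : ℤ) ∣ P.eval (x : ℤ) := ⟨_, rfl⟩
  have hnu : ∀ p : ℕ, nuB Q p = ((range p).filter (fun r : ℕ => (p : ℤ) ∣ P.eval (r : ℤ))).card := by
    intro p
    unfold nuB
    congr 1
    apply filter_congr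
    intro r _
    rw [hQ]
  have hper : PerB Q D := by
    refine ⟨fun p x => ?_, fun p hp => ?_⟩
    · rw [hQ]
      exact dvd_eval_iff P p x
    · obtain ⟨x, hx⟩ := hfix p hp
      rw [hnu]
      refine le_trans ?_ hPdeg
      have := card_roots_mod P p hp x (by rw [hPe]; exact hx)
      convert this
  have had : ∀ p, p.Prime → nuB Q p < p := by
    intro p hp
    obtain ⟨x, hx⟩ := hfix p hp
    rw [hnu]
    have hp0 : (0 : ℤ) < p := by exact_mod_cast hp.pos
    have hr0 := Int.emod_nonneg x hp0.ne'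
    have hr1 := Int.emod_lt_of_pos x hp0
    calc ((range p).filter (fun r : ℕ => (p : ℤ) ∣ P.eval (r : ℤ))).card < (range p).card := by
          apply card_lt_card
          rw [filter_ssubset]
          refine ⟨(x % p).toNat, mem_range.2 (by omega), fun hd => hx ?_⟩
          rw [Int.toNat_of_nonneg hr0] at hd
          rw [← hPe]
          have h1 : (p : ℤ) ∣ P.eval x - P.eval (x % p) := by
            refine dvd_trans ?_ (sub_dvd_eval_sub _ _ P)
            exact Int.dvd_self_sub_emod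
          have := Int.dvd_add h1 hd
          rwa [sub_add_cancel] at this
      _ = p := card_range _
  have hmain := hN1 n hnN1 y (hE ▸ hy1) Q hper had
  obtain ⟨S, hS⟩ : ∃ S : Finset ℕ, S = (Icc 1 (n - 1)).filter (fun m => ∀ p ∈ pz y, ¬ Q p m) := ⟨_, rfl⟩
  rw [← hS] at hmain
  obtain ⟨G, hG⟩ : ∃ G : Finset ℕ, G = (Icc 1 (n - 1)).filter (fun x : ℕ => ∀ k,
    AlmostPrime (E * (f k).totalDegree) E n (MvPolynomial.eval ![(x : ℤ), (n : ℤ) - x] (f k))) := ⟨_, rfl⟩
  have hsub : S ⊆ G ∪ (univ : Finset (Fin m)).biUnion (fun k =>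
      ((({-1, 0, 1} : Finset ℤ)).biUnion (fun v => (Icc 1 (n - 1)).filter (fun x : ℕ =>
        (line (f k) n).eval (x : ℤ) = v)))) := by
    intro x hx
    rw [hS, mem_filter] at hx
    obtain ⟨hxI, hxQ⟩ := hx
    have hxI' := mem_Icc.1 hxI
    by_cases hbad : ∃ k, (line (f k) n).eval (x : ℤ) ∈ (({-1, 0, 1} : Finset ℤ))
    · obtain ⟨k, hk⟩ := hbad
      apply mem_union_right
      rw [mem_biUnion]
      refine ⟨k, mem_univ _, ?_⟩
      rw [mem_biUnion]
      exact ⟨_, hk, mem_filter.2 ⟨hxI, rfl⟩⟩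
    · push Not at hbad
      apply mem_union_left
      rw [hG, mem_filter]
      refine ⟨hxI, fun k => ?_⟩
      have hk := hbad k
      have hev := eval_line (f k) n (x : ℤ)
      rw [hev] at hk
      obtain ⟨v, hv⟩ : ∃ v, v = MvPolynomial.eval ![(x : ℤ), (n : ℤ) - x] (f k) := ⟨_, rfl⟩
      rw [← hv] at hk hev ⊢
      simp only [mem_insert, mem_singleton, not_or] at hk
      have hv2 : 2 ≤ |v| := by
        rcases abs_cases v with h | h <;> omega
      have hbig : ∀ p : ℕ, p.Prime → (p : ℤ) ∣ v → y + 1 ≤ p := by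
        intro p hp hd
        by_contra hpy
        have h1 := hxQ p (mem_pz.2 ⟨by omega, hp⟩)
        apply h1
        rw [hQ]
        show (p : ℤ) ∣ P.eval (x : ℤ)
        rw [hPe]
        refine dvd_trans ?_ (dvd_prod_of_mem _ (mem_univ k))
        rw [hev]
        exact hd
      refine ⟨hv2, ?_, ?_⟩
      · apply few_factors E n y (A k) _ _ hy2 _ _ (by omega)
        · intro p hp hd
          exact hbig p hp (Int.natCast_dvd.2 hd)
        · calc A k ^ E ≤ (∑ k, A k) ^ E := Nat.pow_le_pow_left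
                (single_le_sum (f := fun k => A k) (fun _ _ => Nat.zero_le _) (mem_univ k)) _
            _ ≤ n := by omega
        · have h1 := hA k n x hn1 (by omega)
          rw [← hv, Int.abs_eq_natAbs] at h1
          exact_mod_cast h1
      · intro p hp hd
        calc n < (y + 1) ^ E := hy2
          _ ≤ p ^ E := Nat.pow_le_pow_left (hbig p hp hd) _
  have hcard := (card_le_card hsub).trans (card_union_le _ _)
  have hbad : ((univ : Finset (Fin m)).biUnion (fun k =>
      ((({-1, 0, 1} : Finset ℤ)).biUnion (fun v => (Icc 1 (n - 1)).filter (fun x : ℕ =>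
        (line (f k) n).eval (x : ℤ) = v))))).card ≤ 3 * D := by
    refine card_biUnion_le.trans ?_
    rw [hD, mul_sum]
    apply sum_le_sum
    intro k _
    refine card_biUnion_le.trans ?_
    have h1 : ∀ v ∈ (({-1, 0, 1} : Finset ℤ)), ((Icc 1 (n - 1)).filter (fun x : ℕ =>
        (line (f k) n).eval (x : ℤ) = v)).card ≤ (f k).totalDegree := by
      intro v _
      have := card_val (line (f k) n) (hpos k) (n - 1) v
      refine le_trans ?_ (this.trans (natDegree_line_le _ _))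
      exact le_of_eq (by congr)
    refine (sum_le_sum h1).trans ?_
    rw [sum_const]
    simp
  rw [← hG]
  have h1 : (S.card : ℝ) ≤ G.card + 3 * D := by
    exact_mod_cast hcard.trans (Nat.add_le_add_left hbad _)
  linarith

end Pool.Agent.V1153.SX
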