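import Mathlib
import Pool.Agent.H373R2.T7.FundC
import Pool.Agent.V1153.SX.Cnt

/-! Systems of classes over the primes of a fixed residue class: local errors. -/

set_option autoImplicit false

namespace Pool.Agent.V1153.SX
open Finset Pool.Agent.H373R2.T7

/-- classes modulo `q = M d` which are `h` modulo `M` and in the family `LSA` modulo `d` -/
noncomputable def LM (Q : ℕ → ℕ → Prop) (z r M h q : ℕ) : Finset ℕ := by
  classical exact if M ∣ q ∧ (q / M).Coprime M then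
    (range q).filter (fun b => b ≡ h [MOD M] ∧ b % (q / M) ∈ LSA Q z r (q / M)) else ∅

open Classical in
theorem LM_mul (Q : ℕ → ℕ → Prop) (z r M h d : ℕ) (hM : 1 ≤ M) (hd : d.Coprime M) :
    LM Q z r M h (M * d) = (range (M * d)).filter (fun b => b ≡ h [MOD M] ∧ b % d ∈ LSA Q z r d) := by
  unfold LM
  rw [Nat.mul_div_cancel_left d (by omega), if_pos ⟨Dvd.intro _ rfl, hd⟩]

theorem LM_card (Q : ℕ → ℕ → Prop) (z r M h d : ℕ) (hM : 1 ≤ M) (hd : d.Coprime M) (hd1 : 1 ≤ d)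
    (hlt : ∀ b ∈ LSA Q z r d, b < d) : (LM Q z r M h (M * d)).card = (LSA Q z r d).card := by
  classical
  rw [LM_mul Q z r M h d hM hd]
  apply card_nbij (fun b => b % d)
  · intro b hb
    rw [mem_coe, mem_filter] at hb
    exact mem_coe.2 hb.2.2
  · intro b hb b' hb' hbb
    rw [mem_coe, mem_filter, mem_range] at hb hb'
    have h1 : b ≡ b' [MOD M] := hb.2.1.trans hb'.2.1.symm
    have h2 : b ≡ b' [MOD d] := hbb
    have h3 : b ≡ b' [MOD M * d] := (Nat.modEq_and_modEq_iff_modEq_mul hd.symm).1 ⟨h1, h2⟩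
    exact h3.eq_of_lt_of_lt hb.1 hb'.1
  · intro a ha
    have had := hlt a (mem_coe.1 ha)
    have hcr := (Nat.chineseRemainder hd.symm h a).2
    have hMd : 0 < M * d := Nat.mul_pos hM hd1
    refine ⟨(Nat.chineseRemainder hd.symm h a : ℕ) % (M * d), ?_, ?_⟩
    · rw [mem_coe, mem_filter, mem_range]
      have h1 : (Nat.chineseRemainder hd.symm h a : ℕ) % (M * d) ≡ h [MOD M] :=
        ((Nat.mod_modEq _ (M * d)).of_mul_right d).trans hcr.1
      have h2 : (Nat.chineseRemainder hd.symm h a : ℕ) % (M * d) ≡ a [MOD d] :=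
        ((Nat.mod_modEq _ (M * d)).of_mul_left M).trans hcr.2
      refine ⟨Nat.mod_lt _ hMd, h1, ?_⟩
      have h3 : (Nat.chineseRemainder hd.symm h a : ℕ) % (M * d) % d = a % d := h2
      rw [h3, Nat.mod_eq_of_lt had]
      exact mem_coe.1 ha
    · have h2 : (Nat.chineseRemainder hd.symm h a : ℕ) % (M * d) ≡ a [MOD d] :=
        ((Nat.mod_modEq _ (M * d)).of_mul_left M).trans hcr.2
      have h3 : (Nat.chineseRemainder hd.symm h a : ℕ) % (M * d) % d = a % d := h2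
      show (Nat.chineseRemainder hd.symm h a : ℕ) % (M * d) % d = a
      rw [h3, Nat.mod_eq_of_lt had]

theorem LM_fam (Q : ℕ → ℕ → Prop) {c : ℕ} (hQ : PerA Q c) (hc : 1 ≤ c) (z r M h : ℕ) (hM : 1 ≤ M)
    (hh : h.Coprime M) (A : ℝ) (hA : (c : ℝ) ^ r ≤ A) : H343E.Fam A (LM Q z r M h) := by
  classical
  have hF := LSA_fam Q hQ hc z r A hA
  constructor
  · intro q b hb
    unfold LM at hb
    split_ifs at hb with hq
    · obtain ⟨⟨d, rfl⟩, h2⟩ := hq
      rw [Nat.mul_div_cancel_left d (by omega)] at hb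
      rw [mem_filter, mem_range] at hb
      refine ⟨hb.1, ?_⟩
      have h3 := (hF.cop d _ hb.2.2).2
      have h4 : b.Coprime d := by
        have h5 : (b % d).gcd d = b.gcd d := (Nat.mod_modEq b d).gcd_eq
        rw [Nat.Coprime, ← h5]
        exact h3
      have h5 : b.Coprime M := by
        have h6 := hb.2.1.gcd_eq
        rw [Nat.Coprime, h6]
        exact hh
      exact Nat.Coprime.mul_right h5 h4
    · simp at hb
  · intro q
    by_cases hq : M ∣ q ∧ (q / M).Coprime M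
    · obtain ⟨⟨d, rfl⟩, h2⟩ := hq
      rw [Nat.mul_div_cancel_left d (by omega)] at h2
      rcases Nat.eq_zero_or_pos d with rfl | hd
      · have : LM Q z r M h (M * 0) = ∅ := by
          rw [LM_mul Q z r M h 0 hM h2]
          simp
        rw [this, card_empty, Nat.cast_zero]
        exact (pow_nonneg (Nat.cast_nonneg _) _).trans hA
      · rw [LM_card Q z r M h d hM h2 hd (fun b hb => (hF.cop d b hb).1)]
        exact hF.card d
    · have : LM Q z r M h q = ∅ := by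
        unfold LM
        rw [if_neg hq]
      rw [this, card_empty, Nat.cast_zero]
      exact (pow_nonneg (Nat.cast_nonneg _) _).trans hA

/-- the error term in progressions -/
noncomputable def EM (Q : ℕ → ℕ → Prop) (N z r M h q : ℕ) : ℝ :=
  ∑ b ∈ LM Q z r M h q, |lamAP N q b - lam1 N / (Nat.totient q : ℝ)|

theorem EM_nonneg (Q : ℕ → ℕ → Prop) (N z r M h q : ℕ) : 0 ≤ EM Q N z r M h q :=
  sum_nonneg fun _ _ => abs_nonneg _

theorem cop_prod (M : ℕ) (S : Finset ℕ) (hSp : ∀ p ∈ S, p.Prime) (hSM : ∀ p ∈ S, ¬ p ∣ M) :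
    (∏ p ∈ S, p).Coprime M :=
  Nat.Coprime.prod_left fun p hp => (hSp p hp).coprime_iff_not_dvd.2 (hSM p hp)

open Classical in
theorem cls_errM (Q : ℕ → ℕ → Prop) {c : ℕ} (hQ : PerA Q c) (N z r M h : ℕ) (hM : 1 ≤ M)
    (S : Finset ℕ) (hS : S ⊆ pz z) (hr : S.card ≤ r) (hSM : ∀ p ∈ S, ¬ p ∣ M) :
    |∑ n ∈ (Icc 1 N).filter (fun n : ℕ => n ≡ h [MOD M] ∧ ∀ p ∈ S, ¬ p ∣ n ∧ Q p n),
        ArithmeticFunction.vonMangoldt n -
      lam1 N / (Nat.totient M : ℝ) * ∏ p ∈ S, ((rhoA Q p : ℝ) / (p - 1 : ℝ))| ≤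
      EM Q N z r M h (M * ∏ p ∈ S, p) := by
  have hSp : ∀ p ∈ S, p.Prime := fun p hp => (mem_pz.1 (hS hp)).2
  obtain ⟨d, hd⟩ : ∃ d, d = ∏ p ∈ S, p := ⟨_, rfl⟩
  have hd1 : 1 ≤ d := by
    rw [hd]
    exact Nat.pos_of_ne_zero (prod_ne_zero_iff.2 fun p hp => (hSp p hp).ne_zero)
  have hcop : d.Coprime M := hd ▸ cop_prod M S hSp hSM
  have hpd : ∀ p ∈ S, p ∣ d := fun p hp => hd ▸ dvd_prod_of_mem _ hp
  have hMd : 0 < M * d := Nat.mul_pos hM hd1
  have hLSA := LSA_eq Q z r S hS hr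
  have hcard := LSA_card Q hQ z r S hS hr
  rw [← hd] at hLSA hcard ⊢
  have hmem : ∀ b : ℕ, b ∈ LSA Q z r d ↔ b < d ∧ ∀ p ∈ S, ¬ p ∣ b ∧ Q p b := by
    intro b
    rw [hLSA, mem_filter, mem_range]
  have hmem2 : ∀ n : ℕ, n % d ∈ LSA Q z r d ↔ ∀ p ∈ S, ¬ p ∣ n ∧ Q p n := by
    intro n
    rw [hmem]
    constructor
    · rintro ⟨_, h1⟩ p hp
      obtain ⟨h3, h4⟩ := h1 p hp
      exact ⟨fun h5 => h3 ((dvd_mod_iff n d p (hpd p hp)).2 h5), (hQ.mod n d p (hpd p hp)).1 h4⟩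
    · intro h1
      refine ⟨Nat.mod_lt _ hd1, fun p hp => ?_⟩
      obtain ⟨h3, h4⟩ := h1 p hp
      exact ⟨fun h5 => h3 ((dvd_mod_iff n d p (hpd p hp)).1 h5), (hQ.mod n d p (hpd p hp)).2 h4⟩
  obtain ⟨W', hW'⟩ : ∃ W', W' = ∑ n ∈ (Icc 1 N).filter (fun n : ℕ => n ≡ h [MOD M] ∧
    ∀ p ∈ S, ¬ p ∣ n ∧ Q p n), ArithmeticFunction.vonMangoldt n := ⟨_, rfl⟩
  rw [← hW']
  have h1 : W' = ∑ b ∈ LM Q z r M h (M * d), lamAP N (M * d) b := by
    rw [hW', ← sum_fiberwise_of_maps_to (t := LM Q z r M h (M * d)) (g := fun n => n % (M * d))]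
    · apply sum_congr rfl
      intro b hb
      rw [LM_mul Q z r M h d hM hcop, mem_filter, mem_range] at hb
      obtain ⟨hb1, hb2, hb3⟩ := hb
      unfold lamAP
      apply sum_congr _ (fun _ _ => rfl)
      ext n
      rw [mem_filter, mem_filter, mem_filter]
      constructor
      · rintro ⟨⟨h1, h2⟩, h3⟩
        refine ⟨h1, ?_⟩
        unfold Nat.ModEq
        rw [h3, Nat.mod_eq_of_lt hb1]
      · rintro ⟨h1, h2⟩
        have h3 : n % (M * d) = b := by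
          unfold Nat.ModEq at h2
          rwa [Nat.mod_eq_of_lt hb1] at h2
        refine ⟨⟨h1, (h2.of_mul_right d).trans hb2, ?_⟩, h3⟩
        rw [← hmem2]
        have h4 : n % d = b % d := h2.of_mul_left M
        rw [h4]
        exact hb3
    · intro n hn
      rw [mem_filter] at hn
      rw [LM_mul Q z r M h d hM hcop, mem_filter, mem_range]
      refine ⟨Nat.mod_lt _ hMd, ((Nat.mod_modEq n (M * d)).of_mul_right d).trans hn.2.1, ?_⟩
      rw [Nat.mod_mul_left_mod]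
      exact (hmem2 n).2 hn.2.2
  have h2 : lam1 N / (Nat.totient M : ℝ) * ∏ p ∈ S, ((rhoA Q p : ℝ) / (p - 1 : ℝ)) =
      ∑ b ∈ LM Q z r M h (M * d), lam1 N / (Nat.totient (M * d) : ℝ) := by
    rw [sum_const, nsmul_eq_mul, LM_card Q z r M h d hM hcop hd1 (fun b hb => ((hmem b).1 hb).1), hcard,
      Nat.totient_mul hcop.symm]
    have h3 : ((Nat.totient d : ℕ) : ℝ) = ∏ p ∈ S, ((p : ℝ) - 1) := by
      rw [hd, totient_prod S hSp]
      push_cast
      apply prod_congr rfl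
      intro p hp
      rw [Nat.cast_sub (hSp p hp).one_le]
      push_cast
      ring
    push_cast
    rw [h3, prod_div_distrib]
    ring
  rw [h1, h2, ← sum_sub_distrib]
  exact abs_sum_le_sum_abs _ _

theorem cls_trivM (Q : ℕ → ℕ → Prop) {c : ℕ} (hQ : PerA Q c) (N z r M h : ℕ) (hM : 1 ≤ M)
    (S : Finset ℕ) (hS : S ⊆ pz z) (hr : S.card ≤ r) (hSM : ∀ p ∈ S, ¬ p ∣ M)
    (hd : M * ∏ p ∈ S, p ≤ N) (hL : 1 ≤ Real.log N) :
    EM Q N z r M h (M * ∏ p ∈ S, p) ≤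
      (c : ℝ) ^ S.card * (8 * N * Real.log N / (Nat.totient (∏ p ∈ S, p) : ℝ)) := by
  have hSp : ∀ p ∈ S, p.Prime := fun p hp => (mem_pz.1 (hS hp)).2
  have hd1 : 1 ≤ ∏ p ∈ S, p := Nat.pos_of_ne_zero (prod_ne_zero_iff.2 fun p hp => (hSp p hp).ne_zero)
  have hcop := cop_prod M S hSp hSM
  have hMd : 1 ≤ M * ∏ p ∈ S, p := Nat.mul_pos hM hd1
  unfold EM
  refine (sum_le_sum (fun b _ => lamAP_triv N _ b hMd hd hL)).trans ?_
  have hlt : ∀ b ∈ LSA Q z r (∏ p ∈ S, p), b < ∏ p ∈ S, p := by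
    intro b hb
    classical
    rw [LSA_eq Q z r S hS hr, mem_filter, mem_range] at hb
    exact hb.1
  rw [sum_const, nsmul_eq_mul, LM_card Q z r M h _ hM hcop hd1 hlt, LSA_card Q hQ z r S hS hr]
  have hφ : ((Nat.totient (∏ p ∈ S, p) : ℕ) : ℝ) ≤ (Nat.totient (M * ∏ p ∈ S, p) : ℝ) := by
    rw [Nat.totient_mul hcop.symm]
    have : 1 ≤ Nat.totient M := Nat.totient_pos.2 hM
    exact_mod_cast Nat.le_mul_of_pos_left _ this
  have hφ0 : (0 : ℝ) < (Nat.totient (∏ p ∈ S, p) : ℝ) := by exact_mod_cast Nat.totient_pos.2 hd1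
  have hln := Real.log_natCast_nonneg N
  apply mul_le_mul
  · push_cast
    calc ∏ p ∈ S, (rhoA Q p : ℝ) ≤ ∏ _p ∈ S, (c : ℝ) := prod_le_prod (fun _ _ => Nat.cast_nonneg _)
          (fun p hp => by exact_mod_cast hQ.few p (mem_pz.1 (hS hp)).2)
      _ = (c : ℝ) ^ S.card := by rw [prod_const]
  · exact div_le_div_of_nonneg_left (by positivity) hφ0 hφ
  · positivity
  · positivity

end Pool.Agent.V1153.SX
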