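import Mathlib
import Pool.Agent.V1153.SX.LM

/-! The fundamental lemma over the primes of a fixed residue class: the core inequality. -/

set_option autoImplicit false

namespace Pool.Agent.V1153.SX
open Finset Pool.Agent.H373R2.T7

/-- the local error -/
noncomputable def fM (Q : ℕ → ℕ → Prop) (X1 X2 z r M h c d : ℕ) : ℝ :=
  EM Q X2 z r M h (M * d) + EM Q X1 z r M h (M * d) +
    Real.exp (-(r : ℝ)) * (16 * X2 * Real.log X2) * ((3 * c : ℝ) ^ d.primeFactors.card / (Nat.totient d : ℝ))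

theorem fM_nonneg (Q : ℕ → ℕ → Prop) (X1 X2 z r M h c d : ℕ) : 0 ≤ fM Q X1 X2 z r M h c d := by
  unfold fM
  have h1 := EM_nonneg Q X2 z r M h (M * d)
  have h3 := EM_nonneg Q X1 z r M h (M * d)
  have h2 := Real.log_natCast_nonneg X2
  positivity

theorem sum_Ioc_sub (X1 X2 : ℕ) (h12 : X1 ≤ X2) (A : ℕ → Prop) [DecidablePred A] (w : ℕ → ℝ) :
    ∑ n ∈ (Ioc X1 X2).filter A, w n = ∑ n ∈ (Icc 1 X2).filter A, w n - ∑ n ∈ (Icc 1 X1).filter A, w n := by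
  have h1 : (Icc 1 X2).filter A = (Icc 1 X1).filter A ∪ (Ioc X1 X2).filter A := by
    ext n
    simp only [mem_union, mem_filter, mem_Icc, mem_Ioc]
    constructor
    · rintro ⟨⟨h1, h2⟩, h3⟩
      rcases Nat.lt_or_ge X1 n with h | h
      · exact Or.inr ⟨⟨h, h2⟩, h3⟩
      · exact Or.inl ⟨⟨h1, h⟩, h3⟩
    · rintro (⟨⟨h1, h2⟩, h3⟩ | ⟨⟨h1, h2⟩, h3⟩)
      · exact ⟨⟨h1, by omega⟩, h3⟩
      · exact ⟨⟨by omega, h2⟩, h3⟩
  have h2 : Disjoint ((Icc 1 X1).filter A) ((Ioc X1 X2).filter A) := by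
    rw [disjoint_left]
    intro n hn hn'
    rw [mem_filter, mem_Icc] at hn
    rw [mem_filter, mem_Ioc] at hn'
    omega
  rw [h1, sum_union h2]
  ring

open Classical in
theorem fM_bound (Q : ℕ → ℕ → Prop) {c : ℕ} (hQ : PerA Q c) (hc : 1 ≤ c) (X1 X2 z r M h : ℕ)
    (hM : 1 ≤ M) (h12 : X1 ≤ X2) (S : Finset ℕ) (hS : S ⊆ pz z) (hSM : ∀ p ∈ S, ¬ p ∣ M)
    (hd : M * ∏ p ∈ S, p ≤ X1) (hL : 1 ≤ Real.log X1) :
    |∑ n ∈ (Ioc X1 X2).filter (fun n : ℕ => n ≡ h [MOD M] ∧ ∀ p ∈ S, ¬ p ∣ n ∧ Q p n),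
        ArithmeticFunction.vonMangoldt n -
      (lam1 X2 - lam1 X1) / (Nat.totient M : ℝ) * ∏ p ∈ S, ((rhoA Q p : ℝ) / (p - 1 : ℝ))| ≤
      fM Q X1 X2 z r M h c (∏ p ∈ S, p) := by
  have hSp : ∀ p ∈ S, p.Prime := fun p hp => (mem_pz.1 (hS hp)).2
  have hd1 : 1 ≤ ∏ p ∈ S, p := Nat.pos_of_ne_zero (prod_ne_zero_iff.2 fun p hp => (hSp p hp).ne_zero)
  have hω : (∏ p ∈ S, p).primeFactors.card = S.card := by rw [primeFactors_prod' S hSp]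
  have hX1 : 1 ≤ X1 := le_trans (Nat.mul_pos hM hd1) hd
  have hlog12 : Real.log X1 ≤ Real.log X2 :=
    Real.log_le_log (by exact_mod_cast hX1) (by exact_mod_cast h12)
  rw [sum_Ioc_sub X1 X2 h12]
  have hgen : ∀ r' : ℕ, S.card ≤ r' →
      |∑ n ∈ (Icc 1 X2).filter (fun n : ℕ => n ≡ h [MOD M] ∧ ∀ p ∈ S, ¬ p ∣ n ∧ Q p n),
        ArithmeticFunction.vonMangoldt n -
      ∑ n ∈ (Icc 1 X1).filter (fun n : ℕ => n ≡ h [MOD M] ∧ ∀ p ∈ S, ¬ p ∣ n ∧ Q p n),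
        ArithmeticFunction.vonMangoldt n -
      (lam1 X2 - lam1 X1) / (Nat.totient M : ℝ) * ∏ p ∈ S, ((rhoA Q p : ℝ) / (p - 1 : ℝ))| ≤
      EM Q X2 z r' M h (M * ∏ p ∈ S, p) + EM Q X1 z r' M h (M * ∏ p ∈ S, p) := by
    intro r' hr'
    have h1 := cls_errM Q hQ X2 z r' M h hM S hS hr' hSM
    have h2 := cls_errM Q hQ X1 z r' M h hM S hS hr' hSM
    obtain ⟨W2, hW2⟩ : ∃ W2, W2 = ∑ n ∈ (Icc 1 X2).filter (fun n : ℕ => n ≡ h [MOD M] ∧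
      ∀ p ∈ S, ¬ p ∣ n ∧ Q p n), ArithmeticFunction.vonMangoldt n := ⟨_, rfl⟩
    obtain ⟨W1, hW1⟩ : ∃ W1, W1 = ∑ n ∈ (Icc 1 X1).filter (fun n : ℕ => n ≡ h [MOD M] ∧
      ∀ p ∈ S, ¬ p ∣ n ∧ Q p n), ArithmeticFunction.vonMangoldt n := ⟨_, rfl⟩
    rw [← hW2] at h1 ⊢
    rw [← hW1] at h2 ⊢
    obtain ⟨Pr, hPr⟩ : ∃ Pr, Pr = ∏ p ∈ S, ((rhoA Q p : ℝ) / (p - 1 : ℝ)) := ⟨_, rfl⟩
    rw [← hPr] at h1 h2 ⊢
    have e : W2 - W1 - (lam1 X2 - lam1 X1) / (Nat.totient M : ℝ) * Pr =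
        (W2 - lam1 X2 / (Nat.totient M : ℝ) * Pr) - (W1 - lam1 X1 / (Nat.totient M : ℝ) * Pr) := by ring
    rw [e]
    exact (abs_sub _ _).trans (add_le_add h1 h2)
  unfold fM
  rw [hω]
  have hl2 := Real.log_natCast_nonneg X2
  rcases le_or_gt S.card r with hr | hr
  · refine (hgen r hr).trans ?_
    have : 0 ≤ Real.exp (-(r : ℝ)) * (16 * X2 * Real.log X2) * ((3 * c : ℝ) ^ S.card / (Nat.totient (∏ p ∈ S, p) : ℝ)) := by positivity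
    linarith
  · refine (hgen S.card le_rfl).trans ?_
    have hc2 := cls_trivM Q hQ X2 z S.card M h hM S hS le_rfl hSM (hd.trans h12) (hL.trans hlog12)
    have hc1 := cls_trivM Q hQ X1 z S.card M h hM S hS le_rfl hSM hd hL
    have h1 := EM_nonneg Q X2 z r M h (M * ∏ p ∈ S, p)
    have h2 := EM_nonneg Q X1 z r M h (M * ∏ p ∈ S, p)
    have hc' : (c : ℝ) ^ S.card ≤ Real.exp (-(r : ℝ)) * (3 * c : ℝ) ^ S.card := by
      rw [mul_pow, ← mul_assoc]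
      apply le_mul_of_one_le_left (by positivity)
      have h4 : Real.exp (r : ℝ) ≤ 3 ^ S.card := by
        calc Real.exp (r : ℝ) ≤ Real.exp (S.card : ℝ) := Real.exp_le_exp.2 (by exact_mod_cast hr.le)
          _ = Real.exp 1 ^ S.card := by rw [← Real.exp_nat_mul, mul_one]
          _ ≤ 3 ^ S.card := pow_le_pow_left₀ (Real.exp_pos _).le (by have := Real.exp_one_lt_d9; linarith) _
      calc (1 : ℝ) = Real.exp (-(r : ℝ)) * Real.exp (r : ℝ) := by rw [← Real.exp_add]; simp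
        _ ≤ _ := mul_le_mul_of_nonneg_left h4 (Real.exp_pos _).le
    have hX12 : 8 * (X1 : ℝ) * Real.log X1 ≤ 8 * X2 * Real.log X2 := by
      have h5 : (X1 : ℝ) ≤ X2 := by exact_mod_cast h12
      have h6 : 0 ≤ Real.log X1 := by linarith
      apply mul_le_mul _ hlog12 h6 (by positivity)
      linarith
    have hsum : (c : ℝ) ^ S.card * (8 * X2 * Real.log X2 / (Nat.totient (∏ p ∈ S, p) : ℝ)) +
        (c : ℝ) ^ S.card * (8 * X1 * Real.log X1 / (Nat.totient (∏ p ∈ S, p) : ℝ)) ≤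
        (c : ℝ) ^ S.card * (16 * X2 * Real.log X2 / (Nat.totient (∏ p ∈ S, p) : ℝ)) := by
      rw [← mul_add, ← add_div]
      apply mul_le_mul_of_nonneg_left _ (by positivity)
      apply div_le_div_of_nonneg_right _ (by positivity)
      linarith
    have hfin : (c : ℝ) ^ S.card * (16 * X2 * Real.log X2 / (Nat.totient (∏ p ∈ S, p) : ℝ)) ≤
        Real.exp (-(r : ℝ)) * (16 * X2 * Real.log X2) * ((3 * c : ℝ) ^ S.card / (Nat.totient (∏ p ∈ S, p) : ℝ)) := by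
      calc (c : ℝ) ^ S.card * (16 * X2 * Real.log X2 / (Nat.totient (∏ p ∈ S, p) : ℝ)) ≤
          (Real.exp (-(r : ℝ)) * (3 * c : ℝ) ^ S.card) * (16 * X2 * Real.log X2 / (Nat.totient (∏ p ∈ S, p) : ℝ)) :=
            mul_le_mul_of_nonneg_right hc' (by positivity)
      _ = _ := by ring
    linarith

open Classical in
theorem prime_core (C0 c k b z1 M h y X1 X2 r : ℕ) (hc : 1 ≤ c)
    (hFL : ∀ (J z0 : ℕ) (P : Finset ℕ) (g : ℕ → ℝ),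
      C0 * (c + 1) ≤ b → C0 * (c + 1) ≤ z0 → (∀ p ∈ P, p.Prime ∧ z0 < p ∧ p ≤ 2 ^ 2 ^ J) →
      (∀ p ∈ P, 0 ≤ g p ∧ g p ≤ c / ((p : ℝ) - 1)) →
      ∀ (Ω : Finset ℕ) (w : ℕ → ℝ) (hit : ℕ → ℕ → Prop) (A : ℝ) (err : Finset ℕ → ℝ),
        (∀ m ∈ Ω, 0 ≤ w m) → 0 ≤ A →
        (∀ T ⊆ P, ∏ p ∈ T, p ≤ (2 ^ 2 ^ J) ^ (C0 * b) →
          |∑ m ∈ Ω.filter (fun m => ∀ p ∈ T, hit p m), w m - A * ∏ p ∈ T, g p| ≤ err T) →
        |∑ m ∈ Ω.filter (fun m => ∀ p ∈ P, ¬ hit p m), w m - A * ∏ p ∈ P, (1 - g p)| ≤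
          (1 / 2 : ℝ) ^ b * (A * ∏ p ∈ P, (1 - g p)) +
            ((J : ℝ) + 2) *
              ∑ T ∈ P.powerset.filter (fun T : Finset ℕ => ∏ p ∈ T, p ≤ (2 ^ 2 ^ J) ^ (C0 * b)),
                err T)
    (hk : ∀ Q : ℕ, ∑ e ∈ Icc 1 Q, (3 * c : ℝ) ^ e.primeFactors.card / (Nat.totient e : ℝ) ≤
      (1 + Real.log Q) ^ (2 ^ k))
    (hb : C0 * (c + 1) ≤ b) (hz1 : C0 * (c + 1) ≤ z1) (hM : 1 ≤ M)
    (hMz : ∀ p : ℕ, p.Prime → p ≤ z1 → p ∣ M)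
    (hX : M * (2 ^ 2 ^ JJ y) ^ (C0 * b) ≤ X1) (h12 : X1 ≤ X2) (hL : 1 ≤ Real.log X1)
    (Q : ℕ → ℕ → Prop) (hQ : PerA Q c) :
    |∑ n ∈ (Ioc X1 X2).filter (fun n : ℕ => n ≡ h [MOD M] ∧
        ∀ p ∈ (pz y).filter (fun p => ¬ p ∣ M), ¬ (¬ p ∣ n ∧ Q p n)), ArithmeticFunction.vonMangoldt n -
      (lam1 X2 - lam1 X1) / (Nat.totient M : ℝ) *
        ∏ p ∈ (pz y).filter (fun p => ¬ p ∣ M), (1 - (rhoA Q p : ℝ) / (p - 1 : ℝ))| ≤
      (1 / 2 : ℝ) ^ b * ((lam1 X2 - lam1 X1) / (Nat.totient M : ℝ) *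
        ∏ p ∈ (pz y).filter (fun p => ¬ p ∣ M), (1 - (rhoA Q p : ℝ) / (p - 1 : ℝ))) +
      ((JJ y : ℝ) + 2) * (∑ q ∈ Icc 1 (M * (2 ^ 2 ^ JJ y) ^ (C0 * b)), EM Q X2 y r M h q +
        ∑ q ∈ Icc 1 (M * (2 ^ 2 ^ JJ y) ^ (C0 * b)), EM Q X1 y r M h q +
        Real.exp (-(r : ℝ)) * (16 * X2 * Real.log X2) *
          (1 + Real.log (((2 ^ 2 ^ JJ y) ^ (C0 * b) : ℕ) : ℝ)) ^ (2 ^ k)) := by
  obtain ⟨D, hD⟩ : ∃ D, D = (2 ^ 2 ^ JJ y) ^ (C0 * b) := ⟨_, rfl⟩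
  rw [← hD] at hX ⊢
  obtain ⟨P, hP⟩ : ∃ P, P = (pz y).filter (fun p => ¬ p ∣ M) := ⟨_, rfl⟩
  rw [← hP]
  have hPy : P ⊆ pz y := hP ▸ filter_subset _ _
  have hPM : ∀ p ∈ P, ¬ p ∣ M := fun p hp => by
    rw [hP] at hp
    exact (mem_filter.1 hp).2
  have hPp : ∀ p ∈ P, p.Prime ∧ z1 < p ∧ p ≤ 2 ^ 2 ^ JJ y := by
    intro p hp
    have h1 := mem_pz.1 (hPy hp)
    refine ⟨h1.2, ?_, h1.1.trans (JJ_lt y).le⟩
    by_contra hcon
    exact hPM p hp (hMz p h1.2 (by omega))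
  have hlam : lam1 X1 ≤ lam1 X2 := sum_le_sum_of_subset_of_nonneg (Icc_subset_Icc_right h12)
    (fun _ _ _ => ArithmeticFunction.vonMangoldt_nonneg)
  have hA0 : 0 ≤ (lam1 X2 - lam1 X1) / (Nat.totient M : ℝ) := div_nonneg (by linarith) (Nat.cast_nonneg _)
  have key := hFL (JJ y) z1 P (fun p => (rhoA Q p : ℝ) / (p - 1 : ℝ)) hb hz1 hPp (fun p hp => by
      have hp2 : (2 : ℝ) ≤ p := by exact_mod_cast (hPp p hp).1.two_le
      refine ⟨div_nonneg (Nat.cast_nonneg _) (by linarith), ?_⟩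
      apply div_le_div_of_nonneg_right _ (by linarith)
      exact_mod_cast hQ.few p (hPp p hp).1)
    ((Ioc X1 X2).filter (fun n => n ≡ h [MOD M])) (fun n => ArithmeticFunction.vonMangoldt n)
    (fun p n => ¬ p ∣ n ∧ Q p n) ((lam1 X2 - lam1 X1) / (Nat.totient M : ℝ))
    (fun T => fM Q X1 X2 y r M h c (∏ p ∈ T, p))
    (fun _ _ => ArithmeticFunction.vonMangoldt_nonneg) hA0 (by
      intro T hT hTD
      have h1 := fM_bound Q hQ hc X1 X2 y r M h hM h12 T (hT.trans hPy) (fun p hp => hPM p (hT hp))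
        (le_trans (Nat.mul_le_mul_left _ (hD ▸ hTD)) hX) hL
      rw [filter_filter]
      convert h1)
  rw [filter_filter] at key
  have hsum := sum_inj_le P ∅ (fun p hp => (hPp p hp).1) (by simp) (disjoint_empty_left _) D
    (fun d => fM Q X1 X2 y r M h c d) (fun d => fM_nonneg Q X1 X2 y r M h c d)
  simp only [empty_union, prod_empty, one_mul] at hsum
  have himg : ∀ N : ℕ, ∑ d ∈ Icc 1 D, EM Q N y r M h (M * d) ≤ ∑ q ∈ Icc 1 (M * D), EM Q N y r M h q := by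
    intro N
    rw [← sum_image (f := fun q => EM Q N y r M h q) (g := fun d => M * d) (fun a _ b _ hab =>
      Nat.eq_of_mul_eq_mul_left hM hab)]
    apply sum_le_sum_of_subset_of_nonneg
    · intro q hq
      obtain ⟨d, hd, rfl⟩ := mem_image.1 hq
      rw [mem_Icc] at hd ⊢
      exact ⟨Nat.mul_pos hM hd.1, Nat.mul_le_mul_left _ hd.2⟩
    · intro _ _ _
      exact EM_nonneg _ _ _ _ _ _ _
  have hsum2 : ∑ d ∈ Icc 1 D, fM Q X1 X2 y r M h c d ≤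
      ∑ q ∈ Icc 1 (M * D), EM Q X2 y r M h q + ∑ q ∈ Icc 1 (M * D), EM Q X1 y r M h q +
      Real.exp (-(r : ℝ)) * (16 * X2 * Real.log X2) * (1 + Real.log ((D : ℕ) : ℝ)) ^ (2 ^ k) := by
    unfold fM
    rw [sum_add_distrib, sum_add_distrib, ← mul_sum]
    have h2 := Real.log_natCast_nonneg X2
    have h3 := himg X1
    have h4 := himg X2
    have h5 := mul_le_mul_of_nonneg_left (hk D)
      (show 0 ≤ Real.exp (-(r : ℝ)) * (16 * X2 * Real.log X2) by positivity)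
    linarith
  rw [← hD] at key
  refine le_trans (le_of_eq ?_) (key.trans ?_)
  · congr!
  · apply add_le_add le_rfl
    apply mul_le_mul_of_nonneg_left (hsum.trans hsum2) (by positivity)

end Pool.Agent.V1153.SX
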