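import Mathlib
import Pool.Agent.V1153.SX.LC
import Pool.Agent.TH423.SH.FLLP

/-! The fundamental lemma over the primes of a fixed residue class. -/

set_option autoImplicit false

namespace Pool.Agent.V1153.SX
open Finset Pool.Agent.H373R2.T7

theorem num_err (U k m c : ℕ) (T X1 X2 L2 J E1 E2 Ex Lg : ℝ) (hm : m = U + 2 ^ k + 6)
    (hT : 1 ≤ T) (hTU : 170 * 2 ^ U ≤ T) (hX2 : 0 < X2) (hX1 : 0 ≤ X1) (h12 : X1 ≤ X2)
    (hL1 : T ≤ L2) (hL2 : L2 ≤ 2 * T) (hJ0 : 0 ≤ J) (hJ : J ≤ 5 * T)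
    (hE1 : E1 ≤ T ^ (m * c + 1) * X1 / T ^ (m * c + 1 + U + 4))
    (hE2 : E2 ≤ T ^ (m * c + 1) * X2 / L2 ^ (m * c + 1 + U + 4))
    (hEx0 : 0 ≤ Ex) (hEx : Ex ≤ 1 / T ^ m) (hLg0 : 0 ≤ Lg) (hLg : Lg ≤ T) :
    J * (E2 + E1 + Ex * (16 * X2 * L2) * Lg ^ (2 ^ k)) ≤ X2 / L2 ^ U := by
  have hT0 : 0 < T := by linarith
  have hL0 : 0 < L2 := by linarith
  have hA : 0 < T ^ (m * c + 1) := by positivity
  have e1 : T ^ (m * c + 1) * X2 / T ^ (m * c + 1 + U + 4) = X2 / T ^ (U + 4) := by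
    rw [show m * c + 1 + U + 4 = (m * c + 1) + (U + 4) by ring, pow_add T (m * c + 1) (U + 4),
      mul_div_mul_left _ _ hA.ne']
  have h1 : E1 ≤ X2 / T ^ (U + 4) := by
    rw [← e1]
    refine hE1.trans ?_
    apply div_le_div_of_nonneg_right _ (by positivity)
    exact mul_le_mul_of_nonneg_left h12 hA.le
  have h2 : E2 ≤ X2 / T ^ (U + 4) := by
    rw [← e1]
    refine hE2.trans ?_
    apply div_le_div_of_nonneg_left (by positivity) (by positivity)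
    exact pow_le_pow_left₀ hT0.le hL1 _
  have h3 : Ex * (16 * X2 * L2) * Lg ^ (2 ^ k) ≤ 32 * X2 / T ^ (U + 5) := by
    have h4 : Ex * (16 * X2 * L2) * Lg ^ (2 ^ k) ≤ (1 / T ^ m) * (16 * X2 * (2 * T)) * T ^ (2 ^ k) := by
      apply mul_le_mul _ (pow_le_pow_left₀ hLg0 hLg _) (by positivity) (by positivity)
      apply mul_le_mul hEx _ (by positivity) (by positivity)
      exact mul_le_mul_of_nonneg_left hL2 (by positivity)
    refine h4.trans (le_of_eq ?_)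
    rw [hm, show U + 2 ^ k + 6 = (U + 5) + 1 + 2 ^ k by ring, pow_add, pow_succ]
    field_simp
    ring
  have h4 : 32 * X2 / T ^ (U + 5) ≤ 32 * X2 / T ^ (U + 4) := by
    apply div_le_div_of_nonneg_left (by positivity) (by positivity)
    exact pow_le_pow_right₀ hT (by omega)
  have h5 : E2 + E1 + Ex * (16 * X2 * L2) * Lg ^ (2 ^ k) ≤ 34 * X2 / T ^ (U + 4) := by
    have e : 34 * X2 / T ^ (U + 4) = X2 / T ^ (U + 4) + X2 / T ^ (U + 4) + 32 * X2 / T ^ (U + 4) := by ring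
    rw [e]
    linarith
  calc J * (E2 + E1 + Ex * (16 * X2 * L2) * Lg ^ (2 ^ k)) ≤ J * (34 * X2 / T ^ (U + 4)) :=
        mul_le_mul_of_nonneg_left h5 hJ0
    _ ≤ (5 * T) * (34 * X2 / T ^ (U + 4)) := mul_le_mul_of_nonneg_right hJ (by positivity)
    _ = 170 * X2 / T ^ (U + 3) := by
        rw [pow_succ]
        field_simp
        ring
    _ ≤ X2 / L2 ^ U := by
        rw [div_le_div_iff₀ (by positivity) (by positivity)]
        have h6 : L2 ^ U ≤ 2 ^ U * T ^ U := by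
          rw [← mul_pow]
          exact pow_le_pow_left₀ hL0.le hL2 _
        have h7 : T ≤ T ^ 3 := le_self_pow₀ hT (by norm_num)
        calc 170 * X2 * L2 ^ U ≤ 170 * X2 * (2 ^ U * T ^ U) := mul_le_mul_of_nonneg_left h6 (by positivity)
          _ = X2 * ((170 * 2 ^ U) * T ^ U) := by ring
          _ ≤ X2 * (T ^ 3 * T ^ U) := by
              apply mul_le_mul_of_nonneg_left _ hX2.le
              exact mul_le_mul_of_nonneg_right (hTU.trans h7) (by positivity)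
          _ = X2 * T ^ (U + 3) := by ring

open Classical in
theorem prime_sieve : ∃ C : ℕ, 1 ≤ C ∧ ∀ c : ℕ, 1 ≤ c → ∃ z1 : ℕ, 4 * (c + 1) ≤ z1 ∧ ∀ M : ℕ, 1 ≤ M →
    (∀ p : ℕ, p.Prime → p ≤ z1 → p ∣ M) → ∀ U : ℕ, ∃ N : ℕ, ∀ X1 X2 : ℕ, N ≤ X1 → X1 ≤ X2 →
    X2 ≤ X1 ^ 2 → ∀ y : ℕ, 2 ≤ y → y ^ (C * c) ≤ X1 → ∀ h : ℕ, h.Coprime M → ∀ Q : ℕ → ℕ → Prop,
    PerA Q c →
    1 / 2 * ((lam1 X2 - lam1 X1) / (Nat.totient M : ℝ) *
      ∏ p ∈ (pz y).filter (fun p => ¬ p ∣ M), (1 - (rhoA Q p : ℝ) / (p - 1 : ℝ))) - X2 / Real.log X2 ^ U ≤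
    ∑ n ∈ (Ioc X1 X2).filter (fun n : ℕ => n ≡ h [MOD M] ∧
      ∀ p ∈ (pz y).filter (fun p => ¬ p ∣ M), ¬ (¬ p ∣ n ∧ Q p n)), ArithmeticFunction.vonMangoldt n := by
  obtain ⟨C0, hC0, hFL⟩ := Pool.Agent.TH423.SH.fLemC
  refine ⟨32 * C0 ^ 2, by
    have : 1 ≤ C0 ^ 2 := Nat.one_le_pow _ _ hC0
    omega, fun c hc => ?_⟩
  obtain ⟨b, hb⟩ : ∃ b, b = C0 * (c + 1) := ⟨_, rfl⟩
  have hb1 : 1 ≤ b := by
    rw [hb]
    exact Nat.mul_pos hC0 (by omega)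
  have hCb : 1 ≤ C0 * b := Nat.mul_pos hC0 hb1
  refine ⟨4 * b, by
    rw [hb]
    exact Nat.mul_le_mul_left _ (Nat.le_mul_of_pos_left _ hC0), fun M hM hMz U => ?_⟩
  obtain ⟨k, hk⟩ := Pool.Agent.H398R2.BV.sum_pow_omega_div_totient (3 * (c : ℝ)) (by
    have : (1 : ℝ) ≤ c := by exact_mod_cast hc
    linarith)
  obtain ⟨m, hm⟩ : ∃ m, m = U + 2 ^ k + 6 := ⟨_, rfl⟩
  obtain ⟨B, X0, hBV⟩ := H343E.unsmoothed (m * c + 1 + U + 4)
  obtain ⟨n1, h1⟩ := ev_log' B 1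
  obtain ⟨n2, h2⟩ := ev_L' (170 * 2 ^ U + c + 4)
  refine ⟨max (max ⌈X0⌉₊ n1) (max n2 (M ^ 8)), fun X1 X2 hX1 h12 h21 y hy2 hy h hh Q hQ => ?_⟩
  have c1 : ⌈X0⌉₊ ≤ X1 := le_trans (le_trans (le_max_left _ _) (le_max_left _ _)) hX1
  have c2 : n1 ≤ X1 := le_trans (le_trans (le_max_right _ _) (le_max_left _ _)) hX1
  have c3 : n2 ≤ X1 := le_trans (le_trans (le_max_left _ _) (le_max_right _ _)) hX1
  have c4 : M ^ 8 ≤ X1 := le_trans (le_trans (le_max_right _ _) (le_max_right _ _)) hX1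
  have hX11 : 1 ≤ X1 := le_trans (Nat.one_le_pow _ _ hM) c4
  have hX1r : (1 : ℝ) ≤ X1 := by exact_mod_cast hX11
  have h12r : (X1 : ℝ) ≤ X2 := by exact_mod_cast h12
  obtain ⟨T, hT⟩ : ∃ T, T = Real.log X1 := ⟨_, rfl⟩
  have hT2 := h2 X1 c3
  rw [← hT] at hT2
  have hc0 : (1 : ℝ) ≤ c := by exact_mod_cast hc
  have hU0 : (0 : ℝ) < 170 * 2 ^ U := by positivity
  have hT4 : 4 ≤ T := by linarith
  have hT1 : 1 ≤ T := by linarith
  have hcT : (c : ℝ) ≤ T := by linarith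
  have hL1 : T ≤ Real.log X2 := by
    rw [hT]
    exact Real.log_le_log (by linarith) h12r
  have hL2 : Real.log X2 ≤ 2 * T := by
    have h5 : (X2 : ℝ) ≤ (X1 : ℝ) ^ 2 := by exact_mod_cast h21
    have h6 := Real.log_le_log (by linarith) h5
    rw [Real.log_pow, ← hT] at h6
    push_cast at h6
    exact h6
  obtain ⟨D, hD⟩ : ∃ D, D = (2 ^ 2 ^ JJ y) ^ (C0 * b) := ⟨_, rfl⟩
  have hD1 : 1 ≤ D := by
    rw [hD]
    exact Nat.one_le_pow _ _ (Nat.pos_of_ne_zero (by positivity))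
  have hDy : D ≤ y ^ (2 * (C0 * b)) := by
    calc D ≤ (y ^ 2) ^ (C0 * b) := by
          rw [hD]
          exact Nat.pow_le_pow_left (JJ_le y hy2) _
      _ = _ := by rw [← pow_mul]
  have hyX : y ^ (16 * (C0 * b)) ≤ X1 := by
    refine le_trans (Nat.pow_le_pow_right (by omega) ?_) hy
    rw [hb]
    calc 16 * (C0 * (C0 * (c + 1))) = 16 * C0 ^ 2 * (c + 1) := by ring
      _ ≤ 16 * C0 ^ 2 * (2 * c) := Nat.mul_le_mul_left _ (by omega)
      _ = 32 * C0 ^ 2 * c := by ring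
  have hMD4 : (M * D) ^ 4 ≤ X1 := by
    have h5 : ((M * D) ^ 4) ^ 2 ≤ X1 ^ 2 := by
      calc ((M * D) ^ 4) ^ 2 = M ^ 8 * D ^ 8 := by ring
        _ ≤ X1 * (y ^ (2 * (C0 * b))) ^ 8 := Nat.mul_le_mul c4 (Nat.pow_le_pow_left hDy _)
        _ = X1 * y ^ (16 * (C0 * b)) := by rw [← pow_mul]; congr 2; ring
        _ ≤ X1 * X1 := Nat.mul_le_mul_left _ hyX
        _ = X1 ^ 2 := by ring
    by_contra hcon
    push Not at hcon
    have h7 : X1 ^ 2 < ((M * D) ^ 4) ^ 2 := Nat.pow_lt_pow_left hcon (by norm_num)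
    omega
  have hMD1 : 1 ≤ M * D := Nat.mul_pos hM hD1
  have hMDX : M * D ≤ X1 := (Nat.le_self_pow (by norm_num) _).trans hMD4
  have hMDr1 : (1 : ℝ) ≤ ((M * D : ℕ) : ℝ) := by exact_mod_cast hMD1
  have hMD2 : ((M * D : ℕ) : ℝ) ^ 2 ≤ √(X1 : ℝ) := by
    apply Real.le_sqrt_of_sq_le
    rw [← pow_mul]
    exact_mod_cast hMD4
  have hMDs : ((M * D : ℕ) : ℝ) ≤ √(X1 : ℝ) := le_trans (le_self_pow₀ hMDr1 (by norm_num)) hMD2
  have hlogD : 1 + Real.log (D : ℝ) ≤ T := by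
    have h5 : (D : ℝ) ^ 4 ≤ X1 := by
      have h6 : D ^ 4 ≤ X1 := le_trans (Nat.pow_le_pow_left (Nat.le_mul_of_pos_left _ hM) 4) hMD4
      exact_mod_cast h6
    have hD0 : (0 : ℝ) < D := by exact_mod_cast hD1
    have h6 := Real.log_le_log (by positivity) h5
    rw [Real.log_pow, ← hT] at h6
    push_cast at h6
    linarith
  have hlogD0 : 0 ≤ 1 + Real.log (D : ℝ) := by
    have := Real.log_natCast_nonneg D
    linarith
  obtain ⟨r, hr⟩ : ∃ r, r = ⌈(m : ℝ) * Real.log T⌉₊ := ⟨_, rfl⟩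
  obtain ⟨hr1, hr2⟩ := num_r T m c hT1 hc hcT
  rw [← hr] at hr1 hr2
  have hA1 : 1 ≤ T ^ (m * c + 1) := one_le_pow₀ hT1
  have hfam := LM_fam Q hQ hc y r M h hM hh _ hr2
  have hbvgen : ∀ X : ℕ, X1 ≤ X → ∑ q ∈ Icc 1 (M * D), EM Q X y r M h q ≤
      T ^ (m * c + 1) * X / Real.log X ^ (m * c + 1 + U + 4) := by
    intro X hX
    have hXr : (X1 : ℝ) ≤ X := by exact_mod_cast hX
    have hX0 : (0 : ℝ) < X := by linarith
    have hX0' : X0 ≤ (X : ℝ) := (Nat.le_ceil _).trans (by exact_mod_cast c1.trans hX)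
    have hlX : T ≤ Real.log X := by
      rw [hT]
      exact Real.log_le_log (by linarith) hXr
    have a1 := h1 X (c2.trans hX)
    rw [one_mul] at a1
    have hss : √(X : ℝ) * √(X : ℝ) = X := Real.mul_self_sqrt hX0.le
    have hs0 : 0 < √(X : ℝ) := Real.sqrt_pos.2 hX0
    have hs1 : √(X1 : ℝ) ≤ √(X : ℝ) := Real.sqrt_le_sqrt hXr
    have hLB : 0 < Real.log X ^ B := pow_pos (by linarith) _
    have hXB : √(X : ℝ) ≤ X / Real.log X ^ B := by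
      rw [le_div_iff₀ hLB]
      calc √(X : ℝ) * Real.log X ^ B ≤ √(X : ℝ) * √(X : ℝ) := mul_le_mul_of_nonneg_left a1 hs0.le
        _ = X := hss
    have hbv := hBV X hX0' (T ^ (m * c + 1)) hA1 (M * D) ((hMDs.trans hs1).trans hXB) (by
      refine ((hMD2.trans hs1).trans hXB).trans ?_
      apply div_le_div_of_nonneg_right _ hLB.le
      exact le_mul_of_one_le_left hX0.le hA1) (LM Q y r M h) hfam
    refine le_trans (le_of_eq ?_) hbv
    apply sum_congr rfl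
    intro d _
    unfold EM
    apply sum_congr rfl
    intro b _
    rw [lamAP_eq, lam1_eq']
  have hE1 := hbvgen X1 le_rfl
  have hE2 := hbvgen X2 h12
  rw [← hT] at hE1
  have hJ : (JJ y : ℝ) + 2 ≤ 5 * T := by
    have hyX1 : y ≤ X1 := (Nat.le_self_pow (by
      have : 0 < C0 * b := hCb
      omega) y).trans hyX
    have h5 : JJ y ≤ Nat.log 2 X1 + 1 := by
      unfold JJ
      have := Nat.log_le_self 2 (Nat.log 2 y)
      have h6 : Nat.log 2 y ≤ Nat.log 2 X1 := Nat.log_mono_right hyX1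
      omega
    have h6 : (JJ y : ℝ) ≤ Nat.log 2 X1 + 1 := by exact_mod_cast h5
    have h7 := natlog_le X1 hX11
    rw [← hT] at h7
    linarith
  have hcore := prime_core C0 c k b (4 * b) M h y X1 X2 r hc (hFL c b) hk hb.ge (by omega) hM hMz
    (by rw [← hD]; exact hMDX) h12 (by rw [← hT]; exact hT1) Q hQ
  rw [← hD] at hcore
  have hnum := num_err U k m c T X1 X2 (Real.log X2) ((JJ y : ℝ) + 2) _ _ (Real.exp (-(r : ℝ)))
    (1 + Real.log (D : ℝ)) hm hT1 (by linarith) (by linarith) (by linarith) h12r hL1 hL2 (by positivity) hJ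
    hE1 hE2 (Real.exp_pos _).le hr1 hlogD0 hlogD
  obtain ⟨MM, hMM⟩ : ∃ MM, MM = (lam1 X2 - lam1 X1) / (Nat.totient M : ℝ) *
      ∏ p ∈ (pz y).filter (fun p => ¬ p ∣ M), (1 - (rhoA Q p : ℝ) / (p - 1 : ℝ)) := ⟨_, rfl⟩
  rw [← hMM] at hcore ⊢
  have hMM0 : 0 ≤ MM := by
    rw [hMM]
    have hlam : lam1 X1 ≤ lam1 X2 := sum_le_sum_of_subset_of_nonneg (Icc_subset_Icc_right h12)
      (fun _ _ _ => ArithmeticFunction.vonMangoldt_nonneg)
    apply mul_nonneg (div_nonneg (by linarith) (Nat.cast_nonneg _))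
    exact prod_nonneg fun p hp => (facA Q p (mem_pz.1 (mem_filter.1 hp).1).2).1
  have hb2 : (1 / 2 : ℝ) ^ b * MM ≤ 1 / 2 * MM := by
    apply mul_le_mul_of_nonneg_right _ hMM0
    calc (1 / 2 : ℝ) ^ b ≤ (1 / 2 : ℝ) ^ 1 := pow_le_pow_of_le_one (by norm_num) (by norm_num) hb1
      _ = 1 / 2 := pow_one _
  have h9 := (abs_le.1 hcore).1
  linarith

end Pool.Agent.V1153.SX
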