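import Mathlib
import Pool.Agent.V1153.SX.LD

/-! Many primes of a fixed residue class avoiding at most `c` classes modulo every prime up to a power. -/

set_option autoImplicit false

namespace Pool.Agent.V1153.SX
open Finset Pool.Agent.H373R2.T7

/-- lower bound for the product of the local densities -/
theorem prod_geM (c : ℕ) (M z1 y : ℕ) (hz1 : 4 * (c + 1) ≤ z1)
    (hMz : ∀ p : ℕ, p.Prime → p ≤ z1 → p ∣ M) (Q : ℕ → ℕ → Prop) (hQ : PerA Q c) :
    Vz y ^ (2 * (c + 1)) ≤ ∏ p ∈ (pz y).filter (fun p => ¬ p ∣ M), (1 - (rhoA Q p : ℝ) / (p - 1 : ℝ)) := by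
  classical
  have hfac : ∀ p ∈ pz y, 0 ≤ 1 - 1 / (p : ℝ) ∧ 1 - 1 / (p : ℝ) ≤ 1 := by
    intro p hp
    have hp0 : (0 : ℝ) < p := by exact_mod_cast (mem_pz.1 hp).2.pos
    have h1 : 1 / (p : ℝ) ≤ 1 := by
      rw [div_le_one hp0]
      exact_mod_cast (mem_pz.1 hp).2.one_le
    have h2 : 0 ≤ 1 / (p : ℝ) := by positivity
    constructor <;> linarith
  have h1 : Vz y ≤ ∏ p ∈ (pz y).filter (fun p => ¬ p ∣ M), (1 - 1 / (p : ℝ)) := by
    unfold Vz
    rw [← prod_filter_mul_prod_filter_not (pz y) (fun p => ¬ p ∣ M)]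
    apply mul_le_of_le_one_right (prod_nonneg fun p hp => (hfac p (mem_filter.1 hp).1).1)
    exact prod_le_one (fun p hp => (hfac p (mem_filter.1 hp).1).1) (fun p hp => (hfac p (mem_filter.1 hp).1).2)
  calc Vz y ^ (2 * (c + 1)) ≤ (∏ p ∈ (pz y).filter (fun p => ¬ p ∣ M), (1 - 1 / (p : ℝ))) ^ (2 * (c + 1)) :=
        pow_le_pow_left₀ (Vz_pos y).le h1 _
    _ = ∏ p ∈ (pz y).filter (fun p => ¬ p ∣ M), (1 - 1 / (p : ℝ)) ^ (2 * (c + 1)) := by rw [prod_pow]
    _ ≤ _ := by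
        apply prod_le_prod
        · intro p hp
          exact pow_nonneg (hfac p (mem_filter.1 hp).1).1 _
        · intro p hp
          rw [mem_filter, mem_pz] at hp
          obtain ⟨⟨hpy, hpp⟩, hpM⟩ := hp
          have hpz : z1 < p := by
            by_contra hcon
            exact hpM (hMz p hpp (by omega))
          have hp0 : (0 : ℝ) < p := by exact_mod_cast hpp.pos
          have h2 := Pool.Agent.V1153.GG.one_sub_ge (c := c + 1) (p := p) (by omega) hpp.pos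
          refine h2.trans ?_
          have h3 : (rhoA Q p : ℝ) ≤ c := by exact_mod_cast hQ.few p hpp
          have hp1 : (0 : ℝ) < (p : ℝ) - 1 := by
            have : (2 : ℝ) ≤ p := by exact_mod_cast hpp.two_le
            linarith
          have h4 : (rhoA Q p : ℝ) / (p - 1 : ℝ) ≤ ((c + 1 : ℕ) : ℝ) / p := by
            rw [div_le_div_iff₀ hp1 hp0]
            have h5 : (c : ℝ) + 1 ≤ p := by exact_mod_cast (by omega : c + 1 ≤ p)
            push_cast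
            nlinarith
          linarith

open Classical in
theorem prime_lots : ∃ C : ℕ, 1 ≤ C ∧ ∀ c : ℕ, 1 ≤ c → ∃ z1 : ℕ, ∀ M : ℕ, 1 ≤ M →
    (∀ p : ℕ, p.Prime → p ≤ z1 → p ∣ M) → ∀ δ : ℝ, 0 < δ → ∃ N : ℕ, ∀ X1 X2 : ℕ, N ≤ X1 → X1 ≤ X2 →
    X2 ≤ X1 ^ 2 → δ * X2 ≤ X2 - X1 → ∀ y : ℕ, 2 ≤ y → y ^ (C * c) ≤ X1 → ∀ h : ℕ, h.Coprime M →
    ∀ Q : ℕ → ℕ → Prop, PerA Q c →
    (X2 : ℝ) / Real.log X2 ^ (2 * c + 4) + 3 * c ≤
      (((Ioc X1 X2).filter (fun n : ℕ => n.Prime ∧ n ≡ h [MOD M] ∧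
        ∀ p ∈ (pz y).filter (fun p => ¬ p ∣ M), ¬ Q p n)).card : ℝ) := by
  obtain ⟨C, hC, hmain⟩ := prime_sieve
  obtain ⟨a, ha, hV⟩ := Vz_lower
  refine ⟨C, hC, fun c hc => ?_⟩
  obtain ⟨z1, hz1, hM0⟩ := hmain c hc
  refine ⟨z1, fun M hM hMz δ hδ => ?_⟩
  obtain ⟨N1, hN1⟩ := hM0 M hM hMz (2 * c + 4)
  obtain ⟨C1, N2, hC1, hpnt⟩ := pnt_lam 1
  obtain ⟨κ, hκ⟩ : ∃ κ : ℝ, κ = δ / 2 * (a ^ (2 * c + 2) / (Nat.totient M : ℝ)) := ⟨_, rfl⟩
  have hφ : (0 : ℝ) < (Nat.totient M : ℝ) := by exact_mod_cast Nat.totient_pos.2 hM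
  have hκ0 : 0 < κ := by rw [hκ]; positivity
  obtain ⟨n1, h1⟩ := ev_log' (2 * c + 5) 1
  obtain ⟨n2, h2⟩ := ev_L' (20 / κ + 4 + 4 / κ + 8 * (C1 + 2) / δ + 4)
  refine ⟨max (max N1 N2) (max (max n1 n2) ((4 * c + 4) ^ 2)), fun X1 X2 hX1 h12 h21 hδX y hy2 hy h hh Q hQ => ?_⟩
  have c1 : N1 ≤ X1 := le_trans (le_trans (le_max_left _ _) (le_max_left _ _)) hX1
  have c2 : N2 ≤ X1 := le_trans (le_trans (le_max_right _ _) (le_max_left _ _)) hX1
  have c3 : n1 ≤ X1 := le_trans (le_trans (le_max_left _ _) (le_trans (le_max_left _ _) (le_max_right _ _))) hX1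
  have c4 : n2 ≤ X1 := le_trans (le_trans (le_max_right _ _) (le_trans (le_max_left _ _) (le_max_right _ _))) hX1
  have c5 : (4 * c + 4) ^ 2 ≤ X1 := le_trans (le_trans (le_max_right _ _) (le_max_right _ _)) hX1
  have hX11 : 1 ≤ X1 := le_trans (Nat.one_le_pow _ _ (by omega)) c5
  have hX1r : (1 : ℝ) ≤ X1 := by exact_mod_cast hX11
  have h12r : (X1 : ℝ) ≤ X2 := by exact_mod_cast h12
  have hX20 : (0 : ℝ) < X2 := by linarith
  obtain ⟨T, hT⟩ : ∃ T, T = Real.log X1 := ⟨_, rfl⟩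
  obtain ⟨L, hL⟩ : ∃ L, L = Real.log X2 := ⟨_, rfl⟩
  have hTL : T ≤ L := by
    rw [hT, hL]
    exact Real.log_le_log (by linarith) h12r
  have a2 := h2 X1 c4
  rw [← hT] at a2
  have p1 : 0 < 20 / κ := by positivity
  have p2 : 0 < 4 / κ := by positivity
  have p3 : 0 < 8 * (C1 + 2) / δ := by positivity
  have hT1 : 1 ≤ T := by linarith
  have hL1 : 1 ≤ L := by linarith
  have hL0 : 0 < L := by linarith
  have hκL : 20 ≤ κ * L := by
    have : 20 / κ ≤ L := by linarith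
    rw [div_le_iff₀ hκ0] at this
    linarith
  have hmainX := hN1 X1 X2 c1 h12 h21 y hy2 hy h hh Q hQ
  obtain ⟨Pr, hPr⟩ : ∃ Pr, Pr = ∏ p ∈ (pz y).filter (fun p => ¬ p ∣ M), (1 - (rhoA Q p : ℝ) / (p - 1 : ℝ)) := ⟨_, rfl⟩
  rw [← hPr, ← hL] at hmainX
  have hyX1 : y ≤ X1 := (Nat.le_self_pow (Nat.mul_ne_zero (by omega) (by omega)) y).trans hy
  have hly : 0 < Real.log y := Real.log_pos (by exact_mod_cast (by omega : 1 < y))
  have hlyL : Real.log y ≤ L := by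
    refine le_trans ?_ hTL
    rw [hT]
    exact Real.log_le_log (by exact_mod_cast (by omega : 0 < y)) (by exact_mod_cast hyX1)
  have hPr1 : a ^ (2 * c + 2) / L ^ (2 * c + 2) ≤ Pr := by
    rw [hPr, ← div_pow]
    refine le_trans ?_ (prod_geM c M z1 y hz1 hMz Q hQ)
    rw [show 2 * (c + 1) = 2 * c + 2 by ring]
    apply pow_le_pow_left₀ (by positivity)
    refine le_trans ?_ (hV y hy2)
    exact div_le_div_of_nonneg_left ha.le hly hlyL
  -- the length of the interval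
  have hlen : δ / 2 * X2 ≤ lam1 X2 - lam1 X1 := by
    have q1 := hpnt X1 c2
    have q2 := hpnt X2 (c2.trans h12)
    rw [pow_one, ← hT] at q1
    rw [pow_one, ← hL] at q2
    have q3 : (X1 : ℝ) / T ≤ X2 / T := div_le_div_of_nonneg_right h12r (by linarith)
    have q4 : (X2 : ℝ) / L ≤ X2 / T := div_le_div_of_nonneg_left hX20.le (by linarith) hTL
    have q5 : (1 : ℝ) ≤ X2 / T := by
      rw [le_div_iff₀ (by linarith), one_mul, hT]
      have := Real.log_le_sub_one_of_pos (show (0 : ℝ) < X1 by linarith)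
      linarith
    have q6 : 2 * (C1 * (X2 / T) + 2) ≤ 2 * ((C1 + 2) * (X2 / T)) := by nlinarith
    have q7 : 2 * ((C1 + 2) * (X2 / T)) ≤ δ / 2 * X2 := by
      have q8 : 8 * (C1 + 2) / δ ≤ T := by linarith
      rw [div_le_iff₀ hδ] at q8
      have q9 : 2 * (C1 + 2) / T ≤ δ / 2 := by
        rw [div_le_iff₀ (by linarith)]
        nlinarith
      calc 2 * ((C1 + 2) * (X2 / T)) = 2 * (C1 + 2) / T * X2 := by ring
        _ ≤ δ / 2 * X2 := mul_le_mul_of_nonneg_right q9 hX20.le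
    have q10 := mul_le_mul_of_nonneg_left q3 hC1.le
    have q11 := mul_le_mul_of_nonneg_left q4 hC1.le
    have q12 := (abs_le.1 q1).2
    have q13 := (abs_le.1 q2).1
    linarith
  have hMM : κ * X2 / L ^ (2 * c + 2) ≤ (lam1 X2 - lam1 X1) / (Nat.totient M : ℝ) * Pr := by
    calc κ * X2 / L ^ (2 * c + 2) = (δ / 2 * X2 / (Nat.totient M : ℝ)) * (a ^ (2 * c + 2) / L ^ (2 * c + 2)) := by
          rw [hκ]
          ring
      _ ≤ (lam1 X2 - lam1 X1) / (Nat.totient M : ℝ) * Pr := by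
          apply mul_le_mul _ hPr1 (by positivity)
          · apply div_nonneg _ hφ.le
            refine le_trans (by positivity) hlen
          · exact div_le_div_of_nonneg_right hlen hφ.le
  obtain ⟨A, hA⟩ : ∃ A : Finset ℕ, A = (Ioc X1 X2).filter (fun n : ℕ => n.Prime ∧ n ≡ h [MOD M] ∧
        ∀ p ∈ (pz y).filter (fun p => ¬ p ∣ M), ¬ Q p n) := ⟨_, rfl⟩
  rw [← hA, ← hL]
  have hupper : ∑ n ∈ (Ioc X1 X2).filter (fun n : ℕ => n ≡ h [MOD M] ∧
      ∀ p ∈ (pz y).filter (fun p => ¬ p ∣ M), ¬ (¬ p ∣ n ∧ Q p n)), ArithmeticFunction.vonMangoldt n ≤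
      A.card * L + 2 * √(X2 : ℝ) * L := by
    obtain ⟨W, hW⟩ : ∃ W : Finset ℕ, W = (Ioc X1 X2).filter (fun n : ℕ => n ≡ h [MOD M] ∧
      ∀ p ∈ (pz y).filter (fun p => ¬ p ∣ M), ¬ (¬ p ∣ n ∧ Q p n)) := ⟨_, rfl⟩
    rw [← hW, ← sum_filter_add_sum_filter_not W Nat.Prime]
    apply add_le_add
    · have hsub : W.filter Nat.Prime ⊆ A := by
        intro n hn
        rw [mem_filter, hW, mem_filter] at hn
        obtain ⟨⟨hn1, hn2, hn3⟩, hn4⟩ := hn
        rw [hA, mem_filter]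
        refine ⟨hn1, hn4, hn2, fun p hp hQp => hn3 p hp ⟨?_, hQp⟩⟩
        intro hpn
        have hp' := mem_pz.1 (mem_filter.1 hp).1
        have h5 := (Nat.prime_dvd_prime_iff_eq hp'.2 hn4).1 hpn
        rw [mem_Ioc] at hn1
        omega
      calc ∑ n ∈ W.filter Nat.Prime, ArithmeticFunction.vonMangoldt n ≤ ∑ _n ∈ W.filter Nat.Prime, L := by
            apply sum_le_sum
            intro n hn
            rw [mem_filter, hW, mem_filter, mem_Ioc] at hn
            refine ArithmeticFunction.vonMangoldt_le_log.trans ?_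
            rw [hL]
            exact Real.log_le_log (by exact_mod_cast (by omega : 0 < n)) (by exact_mod_cast hn.1.1.2)
        _ = (W.filter Nat.Prime).card * L := by rw [sum_const, nsmul_eq_mul]
        _ ≤ A.card * L := by
            apply mul_le_mul_of_nonneg_right _ hL0.le
            exact_mod_cast card_le_card hsub
    · have h5 := Chebyshev.psi_sub_theta_le (x := (X2 : ℝ)) (by linarith)
      rw [Chebyshev.psi_sub_theta_eq_sum_not_prime, Nat.floor_natCast, ← hL] at h5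
      refine le_trans ?_ h5
      apply sum_le_sum_of_subset_of_nonneg
      · intro n hn
        rw [mem_filter, hW, mem_filter, mem_Ioc] at hn
        rw [mem_filter, mem_Ioc]
        exact ⟨⟨by omega, hn.1.1.2⟩, hn.2⟩
      · intro _ _ _
        exact ArithmeticFunction.vonMangoldt_nonneg
  obtain ⟨Z, hZ⟩ : ∃ Z : ℝ, Z = X2 / L ^ (2 * c + 4) := ⟨_, rfl⟩
  have hlow : 1 / 2 * (κ * X2 / L ^ (2 * c + 2)) - Z ≤ A.card * L + 2 * √(X2 : ℝ) * L := by
    rw [← hZ] at hmainX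
    refine le_trans ?_ (hmainX.trans hupper)
    linarith
  have hZ2 : κ * X2 / L ^ (2 * c + 2) = κ * L ^ 2 * Z := by
    rw [hZ, show 2 * c + 4 = (2 * c + 2) + 2 by ring, pow_add L (2 * c + 2) 2]
    field_simp
  have hZ0 : 0 < Z := by rw [hZ]; positivity
  have hsqZ : √(X2 : ℝ) ≤ Z := by
    have a1 := h1 X2 (c3.trans h12)
    rw [one_mul, ← hL] at a1
    have a1' : L ^ (2 * c + 4) ≤ √(X2 : ℝ) := le_trans (pow_le_pow_right₀ hL1 (by omega)) a1
    rw [hZ, le_div_iff₀ (by positivity)]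
    calc √(X2 : ℝ) * L ^ (2 * c + 4) ≤ √(X2 : ℝ) * √(X2 : ℝ) := mul_le_mul_of_nonneg_left a1' (Real.sqrt_nonneg _)
      _ = X2 := Real.mul_self_sqrt hX20.le
  have hcX : (4 * c + 4 : ℝ) ≤ √(X2 : ℝ) := by
    rw [Real.le_sqrt (by positivity) hX20.le]
    exact_mod_cast c5.trans h12
  rw [← hZ]
  -- divide by `L`
  have hfin : (5 * Z) * L ≤ (A.card + 3 * Z) * L := by
    have q1 : 10 * L * Z ≤ 1 / 2 * (κ * X2 / L ^ (2 * c + 2)) := by
      rw [hZ2]
      have : 20 * (L * Z) ≤ κ * L * (L * Z) := mul_le_mul_of_nonneg_right hκL (by positivity)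
      nlinarith
    have q2 : Z ≤ L * Z := le_mul_of_one_le_left hZ0.le hL1
    have q3 : 2 * √(X2 : ℝ) * L ≤ 2 * Z * L := mul_le_mul_of_nonneg_right (by linarith) hL0.le
    nlinarith
  have hfin2 : 5 * Z ≤ A.card + 3 * Z := le_of_mul_le_mul_right hfin hL0
  linarith

end Pool.Agent.V1153.SX
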