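import Mathlib
import Pool.Agent.V1153.SX.LE
import Pool.Agent.V1153.SX.Alm

/-! One linear member prime and the others almost prime: preparations. -/

set_option autoImplicit false

namespace Pool.Agent.V1153.SX
open Finset Polynomial Pool.Agent.H373R2.T7

theorem crt_int (S : Finset ℕ) (hS : ∀ p ∈ S, p.Prime) (r : ℕ → ℤ) :
    ∃ x : ℤ, ∀ p ∈ S, (p : ℤ) ∣ x - r p := by
  classical
  induction S using Finset.induction_on with
  | empty => exact ⟨0, by simp⟩
  | insert p S hp ih =>
    obtain ⟨x, hx⟩ := ih (fun q hq => hS q (mem_insert_of_mem hq))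
    have hcop : IsCoprime (p : ℤ) ((∏ q ∈ S, q : ℕ) : ℤ) := by
      rw [Nat.isCoprime_iff_coprime]
      apply Nat.Coprime.prod_right
      intro q hq
      rw [Nat.coprime_primes (hS p (mem_insert_self _ _)) (hS q (mem_insert_of_mem hq))]
      rintro rfl
      exact hp hq
    obtain ⟨u, v, huv⟩ := hcop
    refine ⟨x + v * ((∏ q ∈ S, q : ℕ) : ℤ) * (r p - x), fun q hq => ?_⟩
    rcases mem_insert.1 hq with rfl | hq
    · have e : x + v * ((∏ q ∈ S, q : ℕ) : ℤ) * (r q - x) - r q = (q : ℤ) * (u * (x - r q)) := by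
        linear_combination (r q - x) * huv
      rw [e]
      exact Dvd.intro _ rfl
    · have h1 : (q : ℤ) ∣ ((∏ q ∈ S, q : ℕ) : ℤ) := by exact_mod_cast dvd_prod_of_mem _ hq
      have e : x + v * ((∏ q ∈ S, q : ℕ) : ℤ) * (r p - x) - r q =
        (x - r q) + ((∏ q ∈ S, q : ℕ) : ℤ) * (v * (r p - x)) := by ring
      rw [e]
      exact Int.dvd_add (hx q hq) (h1.mul_right _)

theorem dvd_eval_of_dvd_sub (P : ℤ[X]) (p x y : ℤ) (h : p ∣ x - y) (hx : p ∣ P.eval x) : p ∣ P.eval y := by
  have h1 : p ∣ P.eval x - P.eval y := h.trans (sub_dvd_eval_sub _ _ P)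
  have := Int.dvd_sub hx h1
  rwa [sub_sub_cancel] at this

/-- the classes of `v` modulo `p` for which the corresponding `x` is a zero of `P` -/
def QP (P : ℤ[X]) (α β σ : ℤ) (M p v : ℕ) : Prop :=
  ¬ p ∣ M ∧ ∃ x : ℤ, (p : ℤ) ∣ α * x + β - σ * v ∧ (p : ℤ) ∣ P.eval x

theorem QP_per (P : ℤ[X]) (α β σ : ℤ) (M D : ℕ) (hσ : σ * σ = 1) (hD : P.natDegree ≤ D)
    (hfix : ∀ p : ℕ, p.Prime → ∃ x : ℤ, ¬ (p : ℤ) ∣ P.eval x) : PerA (QP P α β σ M) D := by
  classical
  constructor
  · intro p n
    unfold QP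
    apply and_congr_right
    intro _
    apply exists_congr
    intro x
    apply and_congr_left
    intro _
    have h2 : (n : ℤ) = p * ((n / p : ℕ) : ℤ) + ((n % p : ℕ) : ℤ) := by
      exact_mod_cast (Nat.div_add_mod n p).symm
    have h3 : α * x + β - σ * ((n % p : ℕ) : ℤ) = (α * x + β - σ * n) + (p : ℤ) * (σ * ((n / p : ℕ) : ℤ)) := by
      rw [h2]
      push_cast
      ring
    rw [h3]
    constructor
    · intro h
      exact Int.dvd_add h (Dvd.intro _ rfl)
    · intro h
      exact (dvd_add_left (Dvd.intro _ rfl)).1 h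
  · intro p hp
    obtain ⟨x0, hx0⟩ := hfix p hp
    refine le_trans ?_ ((card_roots_mod P p hp x0 hx0).trans hD)
    unfold rhoA
    have hp0 : (0 : ℤ) < p := by exact_mod_cast hp.pos
    have hex : ∀ r ∈ (range p).filter (fun r => ¬ p ∣ r ∧ QP P α β σ M p r),
        ∃ x : ℤ, (p : ℤ) ∣ α * x + β - σ * r ∧ (p : ℤ) ∣ P.eval x := by
      intro r hr
      exact (mem_filter.1 hr).2.2.2
    choose! g hg1 hg2 using hex
    have hcard : ((range p).filter (fun r => ¬ p ∣ r ∧ QP P α β σ M p r)).card ≤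
        ((range p).filter (fun r : ℕ => (p : ℤ) ∣ P.eval (r : ℤ))).card := by
      apply card_le_card_of_injOn (fun r => (g r % p).toNat)
      · intro r hr
        rw [mem_coe, mem_filter, mem_range]
        have h1 := Int.emod_nonneg (g r) hp0.ne'
        have h2 := Int.emod_lt_of_pos (g r) hp0
        refine ⟨show (g r % p).toNat < p by omega, ?_⟩
        show (p : ℤ) ∣ P.eval (((g r % p).toNat : ℕ) : ℤ)
        rw [Int.toNat_of_nonneg h1]
        exact dvd_eval_of_dvd_sub P p (g r) _ Int.dvd_self_sub_emod (hg2 r (mem_coe.1 hr))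
      · intro r hr s hs hrs
        have hr' := mem_range.1 (mem_filter.1 (mem_coe.1 hr)).1
        have hs' := mem_range.1 (mem_filter.1 (mem_coe.1 hs)).1
        have e1 := hg1 r (mem_coe.1 hr)
        have e2 := hg1 s (mem_coe.1 hs)
        have h1 := Int.emod_nonneg (g r) hp0.ne'
        have h2 := Int.emod_nonneg (g s) hp0.ne'
        have h3 : g r % p = g s % p := by
          have h4 : (g r % p).toNat = (g s % p).toNat := hrs
          have h5 := congrArg (Nat.cast (R := ℤ)) h4
          rwa [Int.toNat_of_nonneg h1, Int.toNat_of_nonneg h2] at h5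
        have h4 : (p : ℤ) ∣ g r - g s := Int.ModEq.dvd (show g s ≡ g r [ZMOD p] from h3.symm)
        have h5 : (p : ℤ) ∣ σ * ((r : ℤ) - s) := by
          have h6 := Int.dvd_sub (h4.mul_left α) (Int.dvd_sub e1 e2)
          have h7 : α * (g r - g s) - (α * g r + β - σ * r - (α * g s + β - σ * s)) = σ * ((r : ℤ) - s) := by ring
          rwa [h7] at h6
        have h6 : (p : ℤ) ∣ (r : ℤ) - s := by
          have h7 := h5.mul_left σ
          rwa [← mul_assoc, hσ, one_mul] at h7
        have h7 : (r : ℤ) - s = 0 := by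
          apply Int.eq_zero_of_abs_lt_dvd h6
          rw [abs_lt]
          constructor <;> omega
        omega
    convert hcard

end Pool.Agent.V1153.SX
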