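import Mathlib

/-! The range of a linear form on a part of the line. -/

set_option autoImplicit false

namespace Pool.Agent.V1153.SX

theorem geo (s c0 : ℕ) (hs : 1 ≤ s) (n : ℕ) (hn : 16 * s + 4 * c0 + 16 ≤ n) (A0 : ℕ) (B γ : ℤ)
    (hγ : γ.natAbs = s) (hB1 : (n : ℤ) - c0 ≤ B) (hB2 : B ≤ A0 * n) :
    ∃ X1 X2 : ℕ, n ≤ 4 * X1 ∧ X1 ≤ X2 ∧ n + 16 * X1 ≤ 16 * X2 ∧ X2 ≤ (A0 + 1) * n ∧
      ∀ v : ℕ, X1 < v → v ≤ X2 → ∀ t : ℤ, B + γ * t = v → 1 ≤ t ∧ t ≤ n - 1 := by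
  obtain ⟨q, hq⟩ : ∃ q : ℕ, q = n / (4 * s) := ⟨_, rfl⟩
  have h4s : 0 < 4 * s := by omega
  have hq1 : q * (4 * s) ≤ n := by
    rw [hq]
    exact Nat.div_mul_le_self _ _
  have hq2 : n < (q + 1) * (4 * s) := by
    rw [hq]
    exact Nat.lt_mul_of_div_lt (Nat.lt_succ_self _) h4s
  have hq3 : 4 ≤ q := by
    rw [hq, Nat.le_div_iff_mul_le h4s]
    omega
  have hqn : q ≤ n - 1 := by
    have : q * 4 ≤ q * (4 * s) := Nat.mul_le_mul_left _ (by omega)
    omega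
  have e1 : (q : ℤ) * (4 * s) ≤ n := by exact_mod_cast hq1
  have e2 : (n : ℤ) < (q + 1) * (4 * s) := by exact_mod_cast hq2
  have e3 : (4 : ℤ) ≤ q := by exact_mod_cast hq3
  have e4 : (1 : ℤ) ≤ s := by exact_mod_cast hs
  have e5 : (16 * s + 4 * c0 + 16 : ℤ) ≤ n := by exact_mod_cast hn
  have e6 : (q : ℤ) ≤ n - 1 := by omega
  obtain ⟨P, hP⟩ : ∃ P : ℤ, P = s * q := ⟨_, rfl⟩
  have e1' : 4 * P ≤ n := by rw [hP]; linarith
  have e2' : (n : ℤ) < 4 * P + 4 * s := by rw [hP]; linarith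
  have e7 : (A0 : ℤ) * n + n = (A0 + 1) * n := by ring
  rcases Int.natAbs_eq γ with hg | hg
  · rw [hγ] at hg
    refine ⟨(B + s - 1).toNat, (B + P).toNat, by omega, by omega, by omega, ?_, ?_⟩
    · have : ((B + P).toNat : ℤ) ≤ (A0 + 1) * n := by
        rw [Int.toNat_of_nonneg (by omega), ← e7]
        omega
      exact_mod_cast this
    · intro v hv1 hv2 t ht
      have hv1' : B + s - 1 < v := by omega
      have hv2' : (v : ℤ) ≤ B + P := by omega
      rw [hg] at ht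
      have ht1 : (s : ℤ) * 1 ≤ s * t := by omega
      have ht2 : (s : ℤ) * t ≤ s * q := by omega
      have ht1' := le_of_mul_le_mul_left ht1 (by omega)
      have ht2' := le_of_mul_le_mul_left ht2 (by omega)
      exact ⟨ht1', ht2'.trans e6⟩
  · rw [hγ] at hg
    refine ⟨(B - P - 1).toNat, (B - s).toNat, by omega, by omega, by omega, ?_, ?_⟩
    · have : ((B - s).toNat : ℤ) ≤ (A0 + 1) * n := by
        rw [Int.toNat_of_nonneg (by omega), ← e7]
        omega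
      exact_mod_cast this
    · intro v hv1 hv2 t ht
      have hv1' : B - P - 1 < v := by omega
      have hv2' : (v : ℤ) ≤ B - s := by omega
      rw [hg] at ht
      have ht0 : -(s : ℤ) * t = -(s * t) := by ring
      rw [ht0] at ht
      have ht1 : (s : ℤ) * 1 ≤ s * t := by omega
      have ht2 : (s : ℤ) * t ≤ s * q := by omega
      have ht1' := le_of_mul_le_mul_left ht1 (by omega)
      have ht2' := le_of_mul_le_mul_left ht2 (by omega)
      exact ⟨ht1', ht2'.trans e6⟩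

theorem interval (a b c : ℤ) (hab : a ≠ b) : ∃ A N : ℕ, 1 ≤ A ∧ ∀ n : ℕ, N ≤ n →
    ∃ σ : ℤ, σ * σ = 1 ∧ ∃ X1 X2 : ℕ, n ≤ 4 * X1 ∧ X1 ≤ X2 ∧ n + 16 * X1 ≤ 16 * X2 ∧ X2 ≤ A * n ∧
      ∀ v : ℕ, X1 < v → v ≤ X2 → ∀ x : ℤ, (a - b) * x + (b * n + c) = σ * v → 1 ≤ x ∧ x ≤ n - 1 := by
  obtain ⟨s, hs⟩ : ∃ s, s = (a - b).natAbs := ⟨_, rfl⟩
  have hs1 : 1 ≤ s := by omega
  refine ⟨(a.natAbs + b.natAbs + c.natAbs) + 1, 16 * s + 4 * c.natAbs + 16, by omega, fun n hn => ?_⟩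
  have key : ∀ w : ℤ, w ≠ 0 → w.natAbs ≤ a.natAbs + b.natAbs → ∃ σ : ℤ, σ * σ = 1 ∧
      (n : ℤ) - (c.natAbs : ℤ) ≤ σ * (w * n + c) ∧
      σ * (w * n + c) ≤ ((a.natAbs + b.natAbs + c.natAbs : ℕ) : ℤ) * n := by
    intro w hw hwab
    have hwab' : |w| ≤ ((a.natAbs + b.natAbs : ℕ) : ℤ) := by
      rw [Int.abs_eq_natAbs]
      exact_mod_cast hwab
    have hn1 : (1 : ℤ) ≤ n := by omega
    have hc1 : |c| = (c.natAbs : ℤ) := Int.abs_eq_natAbs c
    have hcc := abs_le.1 hc1.le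
    have hcn : (c.natAbs : ℤ) ≤ c.natAbs * n := le_mul_of_one_le_right (by omega) hn1
    have hup : |w| * n ≤ ((a.natAbs + b.natAbs : ℕ) : ℤ) * n := mul_le_mul_of_nonneg_right hwab' (by omega)
    have hlo : 1 * (n : ℤ) ≤ |w| * n := mul_le_mul_of_nonneg_right (by
      have := abs_pos.2 hw
      omega) (by omega)
    have hexp : ((a.natAbs + b.natAbs + c.natAbs : ℕ) : ℤ) * n =
        ((a.natAbs + b.natAbs : ℕ) : ℤ) * n + c.natAbs * n := by push_cast; ring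
    rcases lt_or_gt_of_ne hw with h | h
    · refine ⟨-1, by norm_num, ?_, ?_⟩
      · have : |w| * n = -(w * n) := by rw [abs_of_neg h]; ring
        rw [this] at hlo
        linarith [hcc.2]
      · have : |w| * n = -(w * n) := by rw [abs_of_neg h]; ring
        rw [this] at hup
        rw [hexp]
        linarith [hcc.1]
    · refine ⟨1, by norm_num, ?_, ?_⟩
      · rw [abs_of_pos h] at hlo
        linarith [hcc.1]
      · rw [abs_of_pos h] at hup
        rw [hexp]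
        linarith [hcc.2]
  rcases eq_or_ne a 0 with ha | ha
  · obtain ⟨σ, hσ, h1, h2⟩ := key b (by omega) (by omega)
    have hγ : (σ * (a - b)).natAbs = s := by
      have : σ.natAbs = 1 := by
        have h3 := congrArg Int.natAbs hσ
        rw [Int.natAbs_mul] at h3
        exact Nat.eq_one_of_mul_eq_one_left h3
      rw [Int.natAbs_mul, this, one_mul, hs]
    obtain ⟨X1, X2, g1, g2, g3, g4, g5⟩ := geo s c.natAbs hs1 n hn _ _ _ hγ h1 h2
    refine ⟨σ, hσ, X1, X2, g1, g2, g3, g4, fun v hv1 hv2 x hx => g5 v hv1 hv2 x ?_⟩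
    have h3 : σ * ((a - b) * x + (b * n + c)) = v := by
      rw [hx, ← mul_assoc, hσ, one_mul]
    rw [← h3]
    ring
  · obtain ⟨σ, hσ, h1, h2⟩ := key a ha (by omega)
    have hγ : (-σ * (a - b)).natAbs = s := by
      have : σ.natAbs = 1 := by
        have h3 := congrArg Int.natAbs hσ
        rw [Int.natAbs_mul] at h3
        exact Nat.eq_one_of_mul_eq_one_left h3
      rw [Int.natAbs_mul, Int.natAbs_neg, this, one_mul, hs]
    obtain ⟨X1, X2, g1, g2, g3, g4, g5⟩ := geo s c.natAbs hs1 n hn _ _ _ hγ h1 h2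
    refine ⟨σ, hσ, X1, X2, g1, g2, g3, g4, fun v hv1 hv2 x hx => ?_⟩
    have h4 := g5 v hv1 hv2 (n - x) (by
      have h3 : σ * ((a - b) * x + (b * n + c)) = v := by
        rw [hx, ← mul_assoc, hσ, one_mul]
      rw [← h3]
      ring)
    omega

end Pool.Agent.V1153.SX
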