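import Mathlib
import Pool.Agent.V1153.SX.LF
import Pool.Agent.V1153.SX.LG

/-! One linear member prime and the others almost prime. -/

set_option autoImplicit false

namespace Pool.Agent.V1153.SX
open Finset Polynomial Pool.Agent.H373R2.T7

theorem final_size (n X2 D : ℕ) (hn : 1 ≤ n) (h1 : n ≤ 4 * X2) (h2 : X2 ≤ n ^ 2)
    (h3 : (2 : ℝ) ^ (2 * D + 6) ≤ Real.log n) (hX : 2 ≤ X2) :
    (n : ℝ) / Real.log n ^ (2 * D + 5) ≤ X2 / Real.log X2 ^ (2 * D + 4) := by
  obtain ⟨L, hL⟩ : ∃ L, L = Real.log n := ⟨_, rfl⟩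
  rw [← hL] at h3 ⊢
  have hp : (0 : ℝ) < 2 ^ (2 * D + 6) := by positivity
  have hL0 : 0 < L := by linarith
  have hn0 : (0 : ℝ) < n := by exact_mod_cast hn
  have hX0 : (0 : ℝ) < X2 := by exact_mod_cast (by omega : 0 < X2)
  have hlX : 0 < Real.log X2 := Real.log_pos (by exact_mod_cast (by omega : 1 < X2))
  have h4 : Real.log X2 ≤ 2 * L := by
    have h5 : (X2 : ℝ) ≤ (n : ℝ) ^ 2 := by exact_mod_cast h2
    have h6 := Real.log_le_log hX0 h5
    rw [Real.log_pow, ← hL] at h6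
    push_cast at h6
    exact h6
  have h5 : Real.log X2 ^ (2 * D + 4) ≤ 2 ^ (2 * D + 4) * L ^ (2 * D + 4) := by
    rw [← mul_pow]
    exact pow_le_pow_left₀ hlX.le h4 _
  have h1r : (n : ℝ) ≤ 4 * X2 := by exact_mod_cast h1
  rw [div_le_div_iff₀ (by positivity) (by positivity)]
  calc (n : ℝ) * Real.log X2 ^ (2 * D + 4) ≤ (4 * X2) * (2 ^ (2 * D + 4) * L ^ (2 * D + 4)) :=
        mul_le_mul h1r h5 (by positivity) (by positivity)
    _ = X2 * (2 ^ (2 * D + 6) * L ^ (2 * D + 4)) := by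
        rw [show 2 * D + 6 = (2 * D + 4) + 2 by ring, pow_add (2 : ℝ) (2 * D + 4) 2]
        ring
    _ ≤ X2 * (L * L ^ (2 * D + 4)) := by
        apply mul_le_mul_of_nonneg_left _ hX0.le
        exact mul_le_mul_of_nonneg_right h3 (by positivity)
    _ = X2 * L ^ (2 * D + 5) := by
        rw [show 2 * D + 5 = (2 * D + 4) + 1 by ring, pow_succ L (2 * D + 4)]
        ring

open Classical in
theorem one_prime : ∃ C : ℕ, ∀ (m : ℕ) (f : Fin m → MvPolynomial (Fin 2) ℤ) (k₀ : Fin m) (a b c : ℤ),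
    Admissible f →
    f k₀ = MvPolynomial.C a * MvPolynomial.X 0 + MvPolynomial.C b * MvPolynomial.X 1 + MvPolynomial.C c →
    ∃ N : ℕ, ∀ n : ℕ, N ≤ n →
      (n : ℝ) / Real.log n ^ (2 * (∑ k, (f k).totalDegree) + 5) ≤
        (((Icc 1 (n - 1)).filter (fun x : ℕ =>
          (MvPolynomial.eval ![(x : ℤ), (n : ℤ) - x] (f k₀)).natAbs.Prime ∧
          ∀ k, k ≠ k₀ → AlmostPrime (C * (∑ k, (f k).totalDegree) * (f k).totalDegree)
            (C * (∑ k, (f k).totalDegree)) n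
            (MvPolynomial.eval ![(x : ℤ), (n : ℤ) - x] (f k)))).card : ℝ) := by
  obtain ⟨C, hC, hlots⟩ := prime_lots
  refine ⟨2 * C, fun m f k₀ a b c hf hk₀ => ?_⟩
  obtain ⟨N0, hN0⟩ := hf
  obtain ⟨D, hD⟩ : ∃ D, D = ∑ k, (f k).totalDegree := ⟨_, rfl⟩
  rw [← hD]
  have hposN := natDegree_pos f N0 (hN0 N0 le_rfl).1 (hN0 N0 le_rfl).2
  have hdeg : ∀ k, 1 ≤ (f k).totalDegree := fun k => (hposN k).trans (natDegree_line_le _ _)
  have hD1 : 1 ≤ D := by
    rw [hD]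
    refine (hdeg k₀).trans ?_
    exact single_le_sum (f := fun k => (f k).totalDegree) (fun _ _ => Nat.zero_le _) (mem_univ _)
  have hev0 : ∀ (n : ℕ) (x : ℤ), MvPolynomial.eval ![x, (n : ℤ) - x] (f k₀) = (a - b) * x + (b * n + c) := by
    intro n x
    rw [hk₀]
    simp
    ring
  have hab : a ≠ b := by
    intro hab
    have h1 : line (f k₀) N0 = Polynomial.C (b * (N0 : ℤ) + c) := by
      apply Polynomial.funext
      intro x
      rw [eval_line, hev0, eval_C, hab]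
      ring
    have h2 := hposN k₀
    rw [h1, natDegree_C] at h2
    omega
  obtain ⟨z1, hz1⟩ := hlots D hD1
  obtain ⟨s, hs⟩ : ∃ s, s = (a - b).natAbs := ⟨_, rfl⟩
  have hs1 : 1 ≤ s := by omega
  obtain ⟨z2, hz2⟩ : ∃ z2, z2 = max z1 s := ⟨_, rfl⟩
  obtain ⟨K0, hK0⟩ : ∃ K0, K0 = ∏ p ∈ pz z2, p := ⟨_, rfl⟩
  have hK01 : 1 ≤ K0 := by
    rw [hK0]
    exact Nat.pos_of_ne_zero (prod_ne_zero_iff.2 fun p hp => (mem_pz.1 hp).2.ne_zero)
  obtain ⟨M, hMd⟩ : ∃ M, M = s * K0 := ⟨_, rfl⟩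
  have hM : 1 ≤ M := hMd ▸ Nat.mul_pos hs1 hK01
  have hpK : ∀ p : ℕ, p.Prime → p ≤ z2 → p ∣ K0 := by
    intro p hp hpz
    rw [hK0]
    exact dvd_prod_of_mem _ (mem_pz.2 ⟨hpz, hp⟩)
  have hMz : ∀ p : ℕ, p.Prime → p ≤ z1 → p ∣ M := by
    intro p hp hpz
    rw [hMd]
    exact (hpK p hp (by omega)).mul_left _
  have hpM : ∀ p : ℕ, p.Prime → p ∣ M → p ≤ z2 := by
    intro p hp hd
    rw [hMd] at hd
    rcases (Nat.Prime.dvd_mul hp).1 hd with h | h
    · have := Nat.le_of_dvd (by omega) h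
      omega
    · rw [hK0] at h
      obtain ⟨q, hq, hpq⟩ := (Prime.dvd_finsetProd_iff hp.prime _).1 h
      rw [(Nat.prime_dvd_prime_iff_eq hp (mem_pz.1 hq).2).1 hpq]
      exact (mem_pz.1 hq).1
  obtain ⟨A, N1, hA1, hint⟩ := interval a b c hab
  have hA0 : (0 : ℝ) < A := by exact_mod_cast hA1
  obtain ⟨N2, hN2⟩ := hz1 M hM hMz (1 / (16 * A)) (by positivity)
  have hB : ∀ k, ∃ A : ℕ, ∀ n x : ℕ, 1 ≤ n → x ≤ n →
    |MvPolynomial.eval ![(x : ℤ), n - x] (f k)| ≤ A * (n : ℤ) ^ (f k).totalDegree :=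
    fun k => abs_eval_le (f k)
  choose B hB using hB
  obtain ⟨E, hE⟩ : ∃ E, E = 2 * C * D := ⟨_, rfl⟩
  have hE1 : 1 ≤ E := hE ▸ Nat.mul_pos (by omega) hD1
  rw [← hE]
  obtain ⟨n1, hn1⟩ := ev_big ((2 : ℝ) ^ (2 * D + 6))
  obtain ⟨BE, hBE⟩ : ∃ BE : ℕ, BE = (∑ k, B k) ^ E := ⟨_, rfl⟩
  obtain ⟨TE, hTE⟩ : ∃ TE : ℕ, TE = 2 ^ E := ⟨_, rfl⟩
  refine ⟨N0 + N1 + 4 * N2 + TE + BE + 16 * A + n1 + 16, fun n hn => ?_⟩
  have hnpos : 1 ≤ n := by omega
  obtain ⟨hirr, hfix⟩ := hN0 n (by omega)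
  have hpos := natDegree_pos f n hirr hfix
  obtain ⟨σ, hσ, X1, X2, g1, g2, g3, g4, g5⟩ := hint n (by omega)
  obtain ⟨β, hβ⟩ : ∃ β : ℤ, β = b * n + c := ⟨_, rfl⟩
  rw [← hβ] at g5
  obtain ⟨P, hP⟩ : ∃ P : ℤ[X], P = ∏ k ∈ univ.erase k₀, line (f k) n := ⟨_, rfl⟩
  have hPe : ∀ x : ℤ, P.eval x = ∏ k ∈ univ.erase k₀, (line (f k) n).eval x := by
    intro x
    rw [hP, eval_prod]
  have hprod : ∀ x : ℤ, ∏ k, (line (f k) n).eval x = (line (f k₀) n).eval x * P.eval x := by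
    intro x
    rw [hPe, mul_prod_erase univ (fun k => (line (f k) n).eval x) (mem_univ k₀)]
  have hPdeg : P.natDegree ≤ D := by
    rw [hP, hD]
    refine (natDegree_prod_le _ _).trans ?_
    refine (sum_le_sum fun k _ => natDegree_line_le _ _).trans ?_
    exact sum_le_sum_of_subset (erase_subset _ _)
  have hfixP : ∀ p : ℕ, p.Prime → ∃ x : ℤ, ¬ (p : ℤ) ∣ P.eval x := by
    intro p hp
    obtain ⟨x, hx⟩ := hfix p hp
    refine ⟨x, fun h => hx ?_⟩
    rw [hprod]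
    exact h.mul_left _
  choose! r hr using hfix
  obtain ⟨x0, hx0⟩ := crt_int (pz z2) (fun p hp => (mem_pz.1 hp).2) r
  have hx0' : ∀ p : ℕ, p.Prime → p ≤ z2 →
      ¬ (p : ℤ) ∣ (line (f k₀) n).eval x0 ∧ ¬ (p : ℤ) ∣ P.eval x0 := by
    intro p hp hpz
    have h1 := hx0 p (mem_pz.2 ⟨hpz, hp⟩)
    have h2 := hr p hp
    rw [hprod] at h2
    constructor
    · intro h
      exact h2 ((dvd_eval_of_dvd_sub _ _ _ _ h1 h).mul_right _)
    · intro h
      exact h2 ((dvd_eval_of_dvd_sub _ _ _ _ h1 h).mul_left _)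
  obtain ⟨g0, hg0⟩ : ∃ g0 : ℤ, g0 = (a - b) * x0 + β := ⟨_, rfl⟩
  have hg0' : (line (f k₀) n).eval x0 = g0 := by rw [eval_line, hev0, hg0, hβ]
  have hM0 : (0 : ℤ) < M := by exact_mod_cast hM
  obtain ⟨h, hh⟩ : ∃ h : ℕ, h = (σ * g0 % M).toNat := ⟨_, rfl⟩
  have hh' : (h : ℤ) = σ * g0 % M := by
    rw [hh, Int.toNat_of_nonneg (Int.emod_nonneg _ hM0.ne')]
  have hcop : h.Coprime M := by
    by_contra hcon
    obtain ⟨p, hp, hp1, hp2⟩ := Nat.Prime.not_coprime_iff_dvd.1 hcon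
    have h1 := (hx0' p hp (hpM p hp hp2)).1
    apply h1
    rw [hg0']
    have h2 : (p : ℤ) ∣ σ * g0 % M := by
      rw [← hh']
      exact_mod_cast hp1
    have h3 : (p : ℤ) ∣ (M : ℤ) := by exact_mod_cast hp2
    have h4 : (p : ℤ) ∣ σ * g0 := by
      rw [← Int.emod_add_mul_ediv (σ * g0) M]
      exact Int.dvd_add h2 (h3.mul_right _)
    have h5 := h4.mul_left σ
    rwa [← mul_assoc, hσ, one_mul] at h5
  have hQ := QP_per P (a - b) β σ M D hσ hPdeg hfixP
  obtain ⟨y, hy1, hy2⟩ := exists_root E n hE1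
  have hy : 2 ≤ y := by
    by_contra hcon
    have h1 : (y + 1) ^ E ≤ 2 ^ E := Nat.pow_le_pow_left (by omega) _
    rw [← hTE] at h1
    omega
  have hyX : y ^ (C * D) ≤ X1 := by
    have h1 : (y ^ (C * D)) ^ 2 ≤ 4 * X1 := by
      rw [← pow_mul]
      refine le_trans (le_of_eq ?_) (hy1.trans g1)
      congr 1
      rw [hE]
      ring
    by_contra hcon
    push Not at hcon
    have h2 : X1 ^ 2 < (y ^ (C * D)) ^ 2 := Nat.pow_lt_pow_left hcon (by norm_num)
    have h3 : 4 ≤ X1 := by omega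
    nlinarith
  have hAn : A * n ≤ n ^ 2 := by
    rw [sq]
    exact Nat.mul_le_mul_right _ (by omega)
  have hX21 : X2 ≤ X1 ^ 2 := by
    have h1 : 16 * (A * n) ≤ n * n := by
      rw [← mul_assoc]
      exact Nat.mul_le_mul_right _ (by omega)
    have h2 : n * n ≤ (4 * X1) * (4 * X1) := Nat.mul_le_mul g1 g1
    nlinarith
  have hδ : 1 / (16 * (A : ℝ)) * X2 ≤ X2 - X1 := by
    have h1 : (X2 : ℝ) ≤ A * n := by exact_mod_cast g4
    have h2 : (n : ℝ) + 16 * X1 ≤ 16 * X2 := by exact_mod_cast g3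
    calc 1 / (16 * (A : ℝ)) * X2 ≤ 1 / (16 * (A : ℝ)) * (A * n) := mul_le_mul_of_nonneg_left h1 (by positivity)
      _ = n / 16 := by
          field_simp
      _ ≤ X2 - X1 := by linarith
  have hmain := hN2 X1 X2 (by omega) g2 hX21 hδ y hy hyX h hcop (QP P (a - b) β σ M) hQ
  obtain ⟨W, hW⟩ : ∃ W : Finset ℕ, W = (Ioc X1 X2).filter (fun v : ℕ => v.Prime ∧ v ≡ h [MOD M] ∧
        ∀ p ∈ (pz y).filter (fun p => ¬ p ∣ M), ¬ QP P (a - b) β σ M p v) := ⟨_, rfl⟩
  rw [← hW] at hmain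
  have hex : ∀ v ∈ W, ∃ x : ℕ, 1 ≤ x ∧ x ≤ n - 1 ∧ (a - b) * (x : ℤ) + β = σ * v ∧
      (K0 : ℤ) ∣ (x : ℤ) - x0 := by
    intro v hv
    rw [hW, mem_filter, mem_Ioc] at hv
    obtain ⟨⟨hv1, hv2⟩, hv3, hv4, hv5⟩ := hv
    have h1 : (M : ℤ) ∣ (v : ℤ) - h := by
      have := (Nat.modEq_iff_dvd.1 hv4.symm)
      exact this
    have h2 : (M : ℤ) ∣ (h : ℤ) - σ * g0 := by
      rw [hh']
      have h2' : (M : ℤ) ∣ σ * g0 - σ * g0 % M := Int.dvd_self_sub_emod
      have h3 := (dvd_neg.2 h2')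
      rwa [neg_sub] at h3
    have h3 : (M : ℤ) ∣ σ * v - g0 := by
      have h4 := (Int.dvd_add h1 h2).mul_left σ
      have h5 : σ * ((v : ℤ) - h + (h - σ * g0)) = σ * v - (σ * σ) * g0 := by ring
      rwa [h5, hσ, one_mul] at h4
    have hsM : (a - b) ∣ (M : ℤ) := by
      rw [hMd]
      push_cast
      apply Dvd.dvd.mul_right
      rw [hs]
      exact Int.dvd_natAbs_self
    have h4 : (a - b) ∣ σ * v - β := by
      have h5 := Int.dvd_add (hsM.trans h3) (Dvd.intro x0 rfl : (a - b) ∣ (a - b) * x0)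
      have h6 : σ * v - g0 + (a - b) * x0 = σ * v - β := by rw [hg0]; ring
      rwa [h6] at h5
    obtain ⟨x, hx⟩ := h4
    have hx' : (a - b) * x + β = σ * v := by rw [← hx]; ring
    obtain ⟨h5, h6⟩ := g5 v hv1 hv2 x hx'
    refine ⟨x.toNat, by omega, by omega, ?_, ?_⟩
    · rw [Int.toNat_of_nonneg (by omega)]
      exact hx'
    · rw [Int.toNat_of_nonneg (by omega)]
      have h7 : (M : ℤ) ∣ (a - b) * (x - x0) := by
        have h8 : σ * v - g0 = (a - b) * (x - x0) := by rw [hg0, ← hx']; ring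
        rwa [h8] at h3
      obtain ⟨t, ht⟩ := h7
      rw [hMd] at ht
      push_cast at ht
      have hs0 : (s : ℤ) ≠ 0 := by omega
      rcases Int.natAbs_eq (a - b) with h9 | h9
      · rw [← hs] at h9
        rw [h9, mul_assoc] at ht
        exact ⟨t, mul_left_cancel₀ hs0 ht⟩
      · rw [← hs] at h9
        rw [h9, mul_assoc] at ht
        have h10 : (s : ℤ) * (x - x0) = s * (K0 * (-t)) := by linear_combination -ht
        exact ⟨-t, mul_left_cancel₀ hs0 h10⟩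
  choose! ξ hξ1 hξ2 hξ3 hξ4 using hex
  obtain ⟨G, hG⟩ : ∃ G : Finset ℕ, G = (Icc 1 (n - 1)).filter (fun x : ℕ =>
          (MvPolynomial.eval ![(x : ℤ), (n : ℤ) - x] (f k₀)).natAbs.Prime ∧
          ∀ k, k ≠ k₀ → AlmostPrime (E * (f k).totalDegree) E n
            (MvPolynomial.eval ![(x : ℤ), (n : ℤ) - x] (f k))) := ⟨_, rfl⟩
  rw [← hG]
  have hinj : Set.InjOn ξ W := by
    intro v hv w hw hvw
    have h1 := hξ3 v hv
    have h2 := hξ3 w hw
    rw [hvw, h2] at h1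
    have h3 : σ * (σ * (w : ℤ)) = σ * (σ * v) := by rw [h1]
    rw [← mul_assoc, ← mul_assoc, hσ, one_mul, one_mul] at h3
    exact_mod_cast h3.symm
  have hsub : W.image ξ ⊆ G ∪ (univ : Finset (Fin m)).biUnion (fun k =>
      ((({-1, 0, 1} : Finset ℤ)).biUnion (fun v => (Icc 1 (n - 1)).filter (fun x : ℕ =>
        (line (f k) n).eval (x : ℤ) = v)))) := by
    intro x hx
    obtain ⟨v, hv, rfl⟩ := mem_image.1 hx
    have hx1 := hξ1 v hv
    have hx2 := hξ2 v hv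
    have hx3 := hξ3 v hv
    have hx4 := hξ4 v hv
    rw [hW, mem_filter, mem_Ioc] at hv
    obtain ⟨⟨hv1, hv2⟩, hv3, hv4, hv5⟩ := hv
    obtain ⟨x, hxe⟩ : ∃ x, x = ξ v := ⟨_, rfl⟩
    rw [← hxe] at hx1 hx2 hx3 hx4 ⊢
    have hxI : x ∈ Icc 1 (n - 1) := mem_Icc.2 ⟨hx1, hx2⟩
    by_cases hbad : ∃ k, (line (f k) n).eval (x : ℤ) ∈ (({-1, 0, 1} : Finset ℤ))
    · obtain ⟨k, hk⟩ := hbad
      apply mem_union_right
      rw [mem_biUnion]
      refine ⟨k, mem_univ _, ?_⟩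
      rw [mem_biUnion]
      exact ⟨_, hk, mem_filter.2 ⟨hxI, rfl⟩⟩
    · push Not at hbad
      apply mem_union_left
      rw [hG, mem_filter]
      refine ⟨hxI, ?_, fun k hkk => ?_⟩
      · rw [hev0, ← hβ, hx3, Int.natAbs_mul]
        have : σ.natAbs = 1 := by
          have h3 := congrArg Int.natAbs hσ
          rw [Int.natAbs_mul] at h3
          exact Nat.eq_one_of_mul_eq_one_left h3
        rw [this, one_mul, Int.natAbs_natCast]
        exact hv3
      · have hk := hbad k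
        have hev := eval_line (f k) n (x : ℤ)
        rw [hev] at hk
        obtain ⟨w, hw⟩ : ∃ w, w = MvPolynomial.eval ![(x : ℤ), (n : ℤ) - x] (f k) := ⟨_, rfl⟩
        rw [← hw] at hk hev ⊢
        simp only [mem_insert, mem_singleton, not_or] at hk
        have hv2' : 2 ≤ |w| := by
          rcases abs_cases w with h | h <;> omega
        have hbig : ∀ p : ℕ, p.Prime → (p : ℤ) ∣ w → y + 1 ≤ p := by
          intro p hp hd
          by_contra hpy
          have hPx : (p : ℤ) ∣ P.eval (x : ℤ) := by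
            rw [hPe]
            refine dvd_trans ?_ (dvd_prod_of_mem _ (mem_erase.2 ⟨hkk, mem_univ k⟩))
            rw [hev]
            exact hd
          by_cases hpM' : p ∣ M
          · have hpz := hpM p hp hpM'
            apply (hx0' p hp hpz).2
            have h1 : (p : ℤ) ∣ (x : ℤ) - x0 := dvd_trans (by exact_mod_cast hpK p hp hpz) hx4
            exact dvd_eval_of_dvd_sub _ _ _ _ h1 hPx
          · apply hv5 p (mem_filter.2 ⟨mem_pz.2 ⟨by omega, hp⟩, hpM'⟩)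
            refine ⟨hpM', (x : ℤ), ?_, hPx⟩
            rw [hx3, sub_self]
            exact dvd_zero _
        refine ⟨hv2', ?_, ?_⟩
        · apply few_factors E n y (B k) _ _ hy2 _ _ (by omega)
          · intro p hp hd
            exact hbig p hp (Int.natCast_dvd.2 hd)
          · calc B k ^ E ≤ (∑ k, B k) ^ E := Nat.pow_le_pow_left
                  (single_le_sum (f := fun k => B k) (fun _ _ => Nat.zero_le _) (mem_univ k)) _
              _ ≤ n := by
                  rw [← hBE]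
                  omega
          · have h1 := hB k n x hnpos (by omega)
            rw [← hw, Int.abs_eq_natAbs] at h1
            exact_mod_cast h1
        · intro p hp hd
          calc n < (y + 1) ^ E := hy2
            _ ≤ p ^ E := Nat.pow_le_pow_left (hbig p hp hd) _
  have hcard := (card_le_card hsub).trans (card_union_le _ _)
  rw [card_image_of_injOn hinj] at hcard
  have hbad : ((univ : Finset (Fin m)).biUnion (fun k =>
      ((({-1, 0, 1} : Finset ℤ)).biUnion (fun v => (Icc 1 (n - 1)).filter (fun x : ℕ =>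
        (line (f k) n).eval (x : ℤ) = v))))).card ≤ 3 * D := by
    refine card_biUnion_le.trans ?_
    rw [hD, mul_sum]
    apply sum_le_sum
    intro k _
    refine card_biUnion_le.trans ?_
    have h1 : ∀ v ∈ (({-1, 0, 1} : Finset ℤ)), ((Icc 1 (n - 1)).filter (fun x : ℕ =>
        (line (f k) n).eval (x : ℤ) = v)).card ≤ (f k).totalDegree := by
      intro v _
      have := card_val (line (f k) n) (hpos k) (n - 1) v
      refine le_trans ?_ (this.trans (natDegree_line_le _ _))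
      exact le_of_eq (by congr)
    refine (sum_le_sum h1).trans ?_
    rw [sum_const]
    simp
  have h1 : (W.card : ℝ) ≤ G.card + 3 * D := by
    exact_mod_cast hcard.trans (Nat.add_le_add_left hbad _)
  have h2 := final_size n X2 D hnpos (by omega) (g4.trans hAn) (hn1 n (by omega)) (by omega)
  linarith

end Pool.Agent.V1153.SX
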